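import Pool.Agent.Lib.MP_7ed551_gt.Cy.C.Ext
import Pool.Agent.Lib.MP_7ed551_gt.Cy.P.Tail

/-! Estimates which depend only on the compact part. -/

open scoped ContDiff Topology
open Set Filter Metric Real

noncomputable section

namespace Pool.Agent.Lib.MP_7ed551_gt.Cy

open Pool.Agent.Lib.MP_ccffa6_gt

variable {K : Set E}

theorem exists_apr (hK : IsCompact K) : ∃ ρ C : ℝ, Apr K ρ C := by
  obtain ⟨R, hR, h1⟩ := exists_rad hK
  have hC : 0 ≤ 8 * R + 64 * R ^ 2 := by positivity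
  refine ⟨4 * R + 1, 8 * R + 64 * R ^ 2, by linarith, hC, fun J hJ u c h => ?_⟩
  have hJ' : ∀ x, R < ‖x‖ → J x = J0 := fun x hx => hJ x (h1 x hx)
  obtain ⟨t1, t2, t3, t4⟩ := h.tail hR hJ'
  have ho : ∀ ζ : ℂ, 4 * R + 1 ≤ ‖ζ‖ → u ζ ∉ K := fun ζ hζ =>
    h1 _ ((t1 ζ (by linarith)).trans_le (norm_fst_le _))
  refine ⟨fun hc => funext (h.triv hJ' (by linarith)), fun ζ => ?_⟩
  rcases lt_or_ge R ‖c‖ with hc | hc
  · have e : u = fun ζ => (ζ, c) := funext (h.triv hJ' hc)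
    have e2 : fderiv ℝ u ζ = ContinuousLinearMap.inl ℝ ℂ ℂ := by
      rw [e]
      exact (hasFDerivAt_prodMk_left ζ c).fderiv
    have e3 : u ζ - (ζ, c) = 0 := by rw [e, sub_self]
    rw [e2, e3, sub_self, norm_zero, norm_zero]
    exact ⟨hC, fun hζ => ⟨ho ζ hζ, by positivity, by positivity⟩⟩
  · have h0 := norm_nonneg c
    refine ⟨(t2 ζ).trans (by nlinarith), fun hζ => ⟨ho ζ hζ, (t3 ζ (by linarith)).trans ?_,
      (t4 ζ (by linarith)).trans ?_⟩⟩
    · exact div_le_div_of_nonneg_right (by nlinarith) (norm_nonneg _)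
    · have h2 : 1 ≤ ‖ζ‖ := by linarith
      exact div_le_div₀ hC (by nlinarith) (by linarith) (by nlinarith)

end Pool.Agent.Lib.MP_7ed551_gt.Cy
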