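import Pool.Agent.Lib.MP_7ed551_gt.Cy.C.Cnt0

/-! The continuity method. -/

open scoped ContDiff Topology
open Set Filter Metric Real

noncomputable section

namespace Pool.Agent.Lib.MP_7ed551_gt.Cy

open Pool.Agent.Lib.MP_ccffa6_gt

variable {F : Type} [TopologicalSpace F] [T2Space F] {M : ℝ × ℂ → F → Prop}

theorem cnt_key (hu : LocUn M) {t : ℕ → ℝ} {t0 r : ℝ} {W : ℕ → ℂ → F} {V : ℝ × ℂ → F} {c c' : ℂ}
    (ht : Tendsto t atTop (𝓝 t0)) (hW : ∀ n, Fml M (t n) (W n)) (hr : 0 < r)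
    (hV : ContinuousOn V (ball t0 r ×ˢ ball c r)) (hM : ∀ x ∈ ball t0 r ×ˢ ball c r, M x (V x))
    (hc : c' ∈ ball c r) (h : Tendsto (fun n => W n c') atTop (𝓝 (V (t0, c')))) :
    ∀ y ∈ ball c r, Tendsto (fun n => W n y) atTop (𝓝 (V (t0, y))) := by
  have hT : ∀ y ∈ ball c r, Tendsto (fun n => V (t n, y)) atTop (𝓝 (V (t0, y))) := fun y hy =>
    (hV.continuousAt ((isOpen_ball.prod isOpen_ball).mem_nhds ⟨mem_ball_self hr, hy⟩)).tendsto.comp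
      (ht.prodMk_nhds tendsto_const_nhds)
  have hb := ht.eventually (ball_mem_nhds t0 hr)
  obtain ⟨N, hN⟩ := eventually_atTop.1 hb
  have hs := tendsto_add_atTop_nat N
  have h1 := hu _ _ (hM (t0, c') ⟨mem_ball_self hr, hc⟩) (fun i => (t (i + N), c')) _ _
    ((ht.comp hs).prodMk_nhds tendsto_const_nhds) (h.comp hs) ((hT _ hc).comp hs)
    fun i => ⟨(hW _).2 _, hM _ ⟨hN _ (Nat.le_add_left _ _), hc⟩⟩
  have h2 : ∀ᶠ n in atTop, W n c' = V (t n, c') := by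
    rw [← map_add_atTop_eq_nat N]
    exact h1
  refine fun y hy => (hT y hy).congr' ?_
  filter_upwards [hb, h2] with n h3 h4
  exact (hu.lift (x := fun y => (t n, y)) (V' := fun y => V (t n, y))
    (convex_ball c r).isPreconnected (by fun_prop) (hW n).1.continuousOn
    (hV.comp (by fun_prop) fun y hy => ⟨h3, hy⟩) (fun y hy => ⟨(hW n).2 y, hM _ ⟨h3, hy⟩⟩) hc h4
    hy).symm

theorem fam_closed (he : LocEx M) (hu : LocUn M)
    (hl : ∀ (t : ℕ → ℝ) (t0 : ℝ) (W : ℕ → ℂ → F), Tendsto t atTop (𝓝 t0) →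
      (∀ n, Fml M (t n) (W n)) → ∀ c, ∃ (φ : ℕ → ℕ) (u : F), StrictMono φ ∧ M (t0, c) u ∧
        Tendsto (fun n => W (φ n) c) atTop (𝓝 u)) : IsClosed {t | ∃ W, Fml M t W} := by
  refine IsSeqClosed.isClosed fun t' t0 h1 h2 => ?_
  choose W' hW' using h1
  obtain ⟨ψ, u0, hψ, m0, l0⟩ := hl t' t0 W' h2 hW' 0
  obtain ⟨W, hWe⟩ : ∃ W : ℕ → ℂ → F, W = fun n => W' (ψ n) := ⟨_, rfl⟩
  have ht := h2.comp hψ.tendsto_atTop
  have hW : ∀ n, Fml M ((t' ∘ ψ) n) (W n) := fun n => hWe ▸ hW' _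
  obtain ⟨A, hA⟩ : ∃ A : Set ℂ, ∀ c, c ∈ A ↔
    ∃ u, M (t0, c) u ∧ Tendsto (fun n => W n c) atTop (𝓝 u) := ⟨{c | _}, fun _ => Iff.rfl⟩
  have key : ∀ c ∈ closure A, ∃ V : ℂ → F, ContinuousAt V c ∧
      ∀ᶠ y in 𝓝 c, M (t0, y) (V y) ∧ Tendsto (fun n => W n y) atTop (𝓝 (V y)) := fun c hc => by
    obtain ⟨φ, u, hφ, m, l⟩ := hl _ t0 W ht hW c
    obtain ⟨V, r, hr, rfl, hV, hM⟩ := he.ball m
    obtain ⟨c', h3, h4⟩ := mem_closure_iff_nhds.1 hc _ (ball_mem_nhds c hr)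
    obtain ⟨u', -, l'⟩ := (hA _).1 h4
    obtain rfl := tendsto_nhds_unique (l'.comp hφ.tendsto_atTop) (cnt_key hu
      (ht.comp hφ.tendsto_atTop) (fun n => hW _) hr hV hM (mem_ball_self hr) l c' h3)
    refine ⟨fun y => V (t0, y), (hV.continuousAt ((isOpen_ball.prod isOpen_ball).mem_nhds
      ⟨mem_ball_self hr, mem_ball_self hr⟩)).comp (f := fun y => (t0, y)) (by fun_prop), ?_⟩
    filter_upwards [ball_mem_nhds c hr] with y hy
    exact ⟨hM _ ⟨mem_ball_self hr, hy⟩, cnt_key hu ht hW hr hV hM h3 l' y hy⟩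
  have hU : A = univ := IsClopen.eq_univ ⟨isClosed_of_closure_subset fun c hc => by
      obtain ⟨V, -, h⟩ := key c hc
      exact (hA c).2 ⟨_, h.self_of_nhds⟩, isOpen_iff_mem_nhds.2 fun c hc => by
      obtain ⟨V, -, h⟩ := key c (subset_closure hc)
      exact h.mono fun y hy => (hA y).2 ⟨_, hy⟩⟩ ⟨0, (hA 0).2 ⟨u0, m0, hWe ▸ l0⟩⟩
  choose U m l using fun c => (hA c).1 (hU ▸ mem_univ c)
  refine ⟨U, continuous_iff_continuousAt.2 fun c => ?_, m⟩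
  obtain ⟨V, h3, h4⟩ := key c (subset_closure (hU ▸ mem_univ c))
  exact h3.congr (h4.mono fun y hy => tendsto_nhds_unique hy.2 (l y))

end Pool.Agent.Lib.MP_7ed551_gt.Cy
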