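import Pool.Agent.Lib.MP_7ed551_gt.Cy.C.Def

/-! The continuity method. -/

open scoped ContDiff Topology
open Set Filter Metric Real

noncomputable section

namespace Pool.Agent.Lib.MP_7ed551_gt.Cy

open Pool.Agent.Lib.MP_ccffa6_gt

variable {F : Type} [TopologicalSpace F] [T2Space F] {M : ℝ × ℂ → F → Prop}

/- The coincidence set is closed, and open in `s` by sequences (`IsPreconnected`, or pass to the
subtype and use `IsClopen`; `Filter.exists_seq_forall_of_frequently`). -/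
theorem LocUn.lift (hu : LocUn M) {Y : Type} [TopologicalSpace Y] [FirstCountableTopology Y]
    {s : Set Y} (hs : IsPreconnected s) {x : Y → ℝ × ℂ} {V V' : Y → F} (hx : ContinuousOn x s)
    (hV : ContinuousOn V s) (hV' : ContinuousOn V' s)
    (hM : ∀ y ∈ s, M (x y) (V y) ∧ M (x y) (V' y)) {y0 : Y} (h0 : y0 ∈ s) (e : V y0 = V' y0) :
    EqOn V V' s := by
  have := Subtype.preconnectedSpace hs
  have k : IsClopen {y : s | V y = V' y} := by
    refine ⟨isClosed_eq hV.domRestrict hV'.domRestrict, isOpen_iff_mem_nhds.2 fun y hy => ?_⟩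
    by_contra n
    obtain ⟨z, z1, z2⟩ := exists_seq_forall_of_frequently (not_eventually.1 n)
    obtain ⟨i, hi⟩ := (hu _ _ (hM y y.2).1 _ _ _ ((hx.domRestrict.tendsto y).comp z1)
      ((hV.domRestrict.tendsto y).comp z1) (((hV'.domRestrict.tendsto y).comp z1).trans_eq
        (congrArg 𝓝 (Eq.symm hy))) fun i => hM _ (z i).2).exists
    exact z2 i hi
  exact fun y hy => (k.eq_univ ⟨⟨y0, h0⟩, e⟩).ge (mem_univ ⟨y, hy⟩)

theorem LocEx.ball (he : LocEx M) {t : ℝ} {c : ℂ} {u : F} (h : M (t, c) u) :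
    ∃ (V : ℝ × ℂ → F) (r : ℝ), 0 < r ∧ V (t, c) = u ∧ ContinuousOn V (ball t r ×ˢ ball c r) ∧
      ∀ x ∈ ball t r ×ˢ ball c r, M x (V x) := by
  obtain ⟨V, h1, h2⟩ := he _ _ h
  obtain ⟨r, hr, h3⟩ := Metric.eventually_nhds_iff_ball.1 h2
  rw [← ball_prod_same] at h3
  exact ⟨V, r, hr, h1, fun x hx => (h3 x hx).1.continuousWithinAt, fun x hx => (h3 x hx).2⟩

/- `LocEx.ball` at every `(t0, c, W c)`; `V c (t0, ·) = W` on `ball c (r c)` by `lift`; finite
subcover of `closedBall 0 R`; two local families agree on `ball t0 ε ×ˢ {c}` by `lift`. -/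
theorem fam_open (he : LocEx M) (hu : LocUn M) {U0 : ℂ → F} {R : ℝ} (h0 : Continuous U0)
    (hf : ∀ t c, R ≤ ‖c‖ → ∀ u, M (t, c) u ↔ u = U0 c) : IsOpen {t | ∃ W, Fml M t W} := by
  classical
  refine isOpen_iff_mem_nhds.2 fun t0 ⟨W, w1, w2⟩ => ?_
  choose V r hr v1 v2 v3 using fun c => he.ball (w2 c)
  have a : ∀ c t, t ∈ Metric.ball t0 (r c) → ContinuousOn (fun z => V c (t, z)) (Metric.ball c (r c)) :=
    fun c t ht => (v2 c).comp (by fun_prop) fun z hz => ⟨ht, hz⟩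
  have b : ∀ c, EqOn (fun z => V c (t0, z)) W (Metric.ball c (r c)) := fun c =>
    hu.lift (convex_ball _ _).isPreconnected (x := fun z => (t0, z)) (by fun_prop)
      (a c t0 (mem_ball_self (hr c))) w1.continuousOn
      (fun z hz => ⟨v3 c _ ⟨mem_ball_self (hr c), hz⟩, w2 z⟩) (mem_ball_self (hr c)) (v1 c)
  obtain ⟨S, -, hS⟩ := (isCompact_closedBall (0 : ℂ) R).elim_nhds_subcover
    (fun c => Metric.ball c (r c)) fun c _ => ball_mem_nhds c (hr c)
  filter_upwards [(eventually_all_finset S).2 fun c _ => ball_mem_nhds t0 (hr c)] with t ht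
  let W' : ℂ → F := fun z =>
    if h : ∃ c ∈ S, z ∈ Metric.ball c (r c) then V h.choose (t, z) else U0 z
  have d : ∀ c ∈ S, ∀ z ∈ Metric.ball c (r c), W' z = V c (t, z) := fun c hc z hz => by
    have h : ∃ c ∈ S, z ∈ Metric.ball c (r c) := ⟨c, hc, hz⟩
    have h1 := h.choose_spec
    exact (dif_pos h).trans (hu.lift ((convex_ball t0 (r h.choose)).inter
      (convex_ball t0 (r c))).isPreconnected (x := fun τ => (τ, z)) (by fun_prop)
      ((v2 _).comp (by fun_prop) fun τ hτ => ⟨hτ.1, h1.2⟩)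
      ((v2 _).comp (by fun_prop) fun τ hτ => ⟨hτ.2, hz⟩)
      (fun τ hτ => ⟨v3 _ _ ⟨hτ.1, h1.2⟩, v3 _ _ ⟨hτ.2, hz⟩⟩)
      ⟨mem_ball_self (hr _), mem_ball_self (hr _)⟩ ((b _ h1.2).trans (b _ hz).symm)
      ⟨ht _ h1.1, ht _ hc⟩)
  have e : ∀ z, (∃ c ∈ S, z ∈ Metric.ball c (r c)) ∨ R < ‖z‖ := fun z =>
    (le_or_gt ‖z‖ R).imp_left fun h => by simpa using hS (mem_closedBall_zero_iff.2 h)
  have m : ∀ z, M (t, z) (W' z) := fun z => by
    by_cases h : ∃ c ∈ S, z ∈ Metric.ball c (r c)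
    · obtain ⟨c, hc, hz⟩ := h
      exact d c hc z hz ▸ v3 c _ ⟨ht c hc, hz⟩
    · exact (hf t z ((e z).resolve_left h).le _).2 (dif_neg h)
  refine ⟨W', continuous_iff_continuousAt.2 fun z => ?_, m⟩
  rcases e z with ⟨c, hc, hz⟩ | h
  · exact ((a c t (ht c hc)).congr (d c hc)).continuousAt (isOpen_ball.mem_nhds hz)
  · exact h0.continuousAt.congr (((isOpen_lt continuous_const continuous_norm).eventually_mem
      h).mono fun y hy => ((hf t y (le_of_lt hy) _).1 (m y)).symm)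

end Pool.Agent.Lib.MP_7ed551_gt.Cy
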