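import Pool.Agent.Lib.MP_7ed551_gt.Cy.IfaceF
import Pool.Agent.Lib.MP_ccffa6_gt.T.WA
import Pool.Agent.Lib.MP_ccffa6_gt.T.Base1

/-! The foliation by holomorphic planes: definitions. -/

open scoped ContDiff Topology
open Set Filter Metric Real

noncomputable section

namespace Pool.Agent.Lib.MP_7ed551_gt.Cy

open Pool.Agent.Lib.MP_ccffa6_gt (Form1 dF pb px py JHol dens WA Per)
open Pool.Agent.Lib.MP_ccffa6_gt.WA (fn)

/-- Twice `∂/∂z̄`. -/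
def db (η : ℂ → E) (z : ℂ) : E := px η z + J0 (py η z)

/-- The linearised Cauchy-Riemann operator along `u`. -/
def Lpt (J : E → E →L[ℝ] E) (u ξ : ℂ → E) (z : ℂ) : E :=
  px ξ z + J (u z) (py ξ z) + fderiv ℝ J (u z) (ξ z) (py u z)

/-- A complex frame `Φ` with inverse `Ψ`. -/
structure Frm (J : E → E →L[ℝ] E) (K : Set E) (Φ Ψ : E → E →L[ℝ] E) : Prop where
  smJ : ContDiff ℝ ∞ J
  sq : ∀ x v, J x (J x v) = -v
  cpt : IsCompact K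
  farJ : ∀ x, x ∉ K → J x = J0
  smΦ : ContDiff ℝ ∞ Φ
  smΨ : ContDiff ℝ ∞ Ψ
  left : ∀ x v, Ψ x (Φ x v) = v
  right : ∀ x v, Φ x (Ψ x v) = v
  int : ∀ x v, Φ x (J0 v) = J x (Φ x v)
  far : ∀ x, x ∉ K → ∀ v, Φ x v = v ∧ Ψ x v = v

/-- The term of order zero of the linearised operator in the frame. -/
def Aop (J Φ Ψ : E → E →L[ℝ] E) (u : ℂ → E) (z : ℂ) : E →L[ℝ] E :=
  (Ψ (u z)).comp (px (fun w => Φ (u w)) z + (J (u z)).comp (py (fun w => Φ (u w)) z) +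
    ((fderiv ℝ J (u z)).flip (py u z)).comp (Φ (u z)))

/-- A holomorphic plane asymptotic to `z ↦ (ρ z, c)`. -/
structure SLeaf (ρ : ℝ) (J : E → E →L[ℝ] E) (u : ℂ → E) (c : ℂ) : Prop where
  sm : ContDiff ℝ ∞ u
  hol : JHol J u univ
  lim : Tendsto (fun z => u z - ((ρ : ℂ) * z, c)) (cocompact ℂ) (𝓝 0)

/-- The estimates which depend only on the compact part. -/
def Apr (K : Set E) (ρ C : ℝ) : Prop :=
  1 ≤ ρ ∧ 0 ≤ C ∧ ∀ J : E → E →L[ℝ] E, (∀ x, x ∉ K → J x = J0) → ∀ u c, Leaf J u c →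
    (ρ ≤ ‖c‖ → u = fun ζ => (ζ, c)) ∧ ∀ ζ, ‖u ζ - (ζ, c)‖ ≤ C ∧ (ρ ≤ ‖ζ‖ → u ζ ∉ K ∧
      ‖u ζ - (ζ, c)‖ ≤ C / ‖ζ‖ ∧ ‖fderiv ℝ u ζ - ContinuousLinearMap.inl ℝ ℂ ℂ‖ ≤ C / ‖ζ‖)

/-- An immersed leaf at time `x.1` with label `x.2`. -/
def Im (J : ℝ × E → E →L[ℝ] E) (x : ℝ × ℂ) (u : ℂ → E) : Prop :=
  Leaf (fun y => J (x.1, y)) u x.2 ∧ ∀ ζ, px u ζ ≠ 0

/-- Reduction modulo the periods. -/
def red (z : ℂ) : ℂ := ⟨toIocMod two_pi_pos (-π) z.re, toIocMod two_pi_pos (-π) z.im⟩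

/-- The inner cut-off. -/
def chi1 : ℂ → ℝ := (⟨1, 3 / 2, by norm_num, by norm_num⟩ : ContDiffBump (0 : ℂ))

/-- The outer cut-off. -/
def chi2 : ℂ → ℝ := (⟨2, 5 / 2, by norm_num, by norm_num⟩ : ContDiffBump (0 : ℂ))

section

variable {V V' : Type} [NormedAddCommGroup V] [NormedSpace ℝ V] [NormedAddCommGroup V']
  [NormedSpace ℝ V']

/-- Cut off and extend periodically. -/
def cut (f : ℂ → V) (z : ℂ) : V := chi2 (red z) • f (red z)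

variable [FiniteDimensional ℝ V] [FiniteDimensional ℝ V'] {k : ℕ}

/-- Pointwise application. -/
def wap (A : WA k (V →L[ℝ] V')) : WA k V →L[ℝ] WA k V' :=
  WA.bil (ContinuousLinearMap.id ℝ (V →L[ℝ] V')) A

theorem fn_wap (A : WA k (V →L[ℝ] V')) (v : WA k V) (z : ℂ) :
    fn (wap A v) z = fn A z (fn v z) := rfl

/-- Pointwise scalar multiplication. -/
def wsm (c : WA k ℝ) : WA k V →L[ℝ] WA k V := WA.bil (ContinuousLinearMap.lsmul ℝ ℝ) c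

theorem fn_wsm (c : WA k ℝ) (v : WA k V) (z : ℂ) : fn (wsm c v) z = fn c z • fn v z := rfl

end

variable {k : ℕ}

/-- The Cauchy-Riemann operator on the torus. -/
def cr (J : ℝ × E → E →L[ℝ] E) (p : ℝ × WA (k + 1) E) : WA k E :=
  WA.dx p.2 + wap (WA.incl (WA.sup J (WA.const (p.1, (0 : E)) +
    WA.lin (ContinuousLinearMap.inr ℝ ℝ E) p.2))) (WA.dy p.2)

/-- The Cauchy operator of the plane: `z ↦ Ev z g` solves `db η = chi1 • g`, `η → 0`. -/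
structure OpS (k : ℕ) (Ev : ℂ → WA k E →L[ℝ] E) (T : WA k E →L[ℝ] WA (k + 1) E) : Prop where
  sm : ContDiff ℝ k Ev
  lim : Tendsto Ev (cocompact ℂ) (𝓝 0)
  eq : ∀ g z, ‖z‖ ≤ 2 → fn (T g) z = Ev z g
  sol : ∀ g z, db (fun w => Ev w g) z = chi1 z • fn g z

/-- The data of the implicit function theorem. -/
structure Dat (k : ℕ) where
  J : ℝ × E → E →L[ℝ] E
  K : Set E
  Φ : E → E →L[ℝ] E
  Ψ : E → E →L[ℝ] E
  t0 : ℝ
  c0 : ℂ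
  ρ : ℝ
  u0 : ℂ → E
  Ev : ℂ → WA k E →L[ℝ] E
  T : WA k E →L[ℝ] WA (k + 1) E
  U0 : WA (k + 1) E
  P0 : WA (k + 1) (E →L[ℝ] E)
  Q0 : WA (k + 1) (E →L[ℝ] E)
  c1 : WA k ℝ

namespace Dat

variable (D : Dat k)

/-- The properties of the data. -/
structure OK : Prop where
  two : 2 ≤ k
  smJ : ContDiff ℝ ∞ D.J
  sq : ∀ p v, D.J p (D.J p v) = -v
  farJ : ∀ p : ℝ × E, p.2 ∉ D.K → D.J p = J0
  frm : Frm (fun y => D.J (D.t0, y)) D.K D.Φ D.Ψ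
  op : OpS k D.Ev D.T
  pos : 0 < D.ρ
  leaf : SLeaf D.ρ (fun y => D.J (D.t0, y)) D.u0 D.c0
  out : ∀ z, 1 ≤ ‖z‖ → D.u0 z ∉ D.K
  hU : fn D.U0 = cut D.u0
  hP : fn D.P0 = cut fun z => D.Φ (D.u0 z)
  hQ : fn D.Q0 = cut fun z => D.Ψ (D.u0 z)
  hc : fn D.c1 = cut chi1

/-- The base point. -/
def p0 : (ℝ × ℂ) × WA k E := ((D.t0, D.c0), 0)

/-- The map of the plane with parameter `p`. -/
def up (p : (ℝ × ℂ) × WA k E) (z : ℂ) : E :=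
  D.u0 z + (0, p.1.2 - D.c0) + D.Φ (D.u0 z) (D.Ev z p.2)

/-- Its periodic version. -/
def ut (p : (ℝ × ℂ) × WA k E) : WA (k + 1) E :=
  D.U0 + WA.const ((0 : ℂ), p.1.2 - D.c0) + wap D.P0 (D.T p.2)

/-- The nonlinear equation. -/
def N (p : (ℝ × ℂ) × WA k E) : WA k E :=
  p.2 - wsm D.c1 (wsm D.c1 p.2) + wsm D.c1 (wap (WA.incl D.Q0) (cr D.J (p.1.1, D.ut p)))

/-- The term of order zero. -/
def A (z : ℂ) : E →L[ℝ] E := Aop (fun y => D.J (D.t0, y)) D.Φ D.Ψ D.u0 z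

end Dat

section

variable {F : Type} [TopologicalSpace F]

/-- Local existence. -/
def LocEx (M : ℝ × ℂ → F → Prop) : Prop :=
  ∀ x0 u0, M x0 u0 → ∃ V : ℝ × ℂ → F, V x0 = u0 ∧ ∀ᶠ x in 𝓝 x0, ContinuousAt V x ∧ M x (V x)

/-- Local uniqueness. -/
def LocUn (M : ℝ × ℂ → F → Prop) : Prop :=
  ∀ x0 u0, M x0 u0 → ∀ (x : ℕ → ℝ × ℂ) (u u' : ℕ → F), Tendsto x atTop (𝓝 x0) →
    Tendsto u atTop (𝓝 u0) → Tendsto u' atTop (𝓝 u0) → (∀ i, M (x i) (u i) ∧ M (x i) (u' i)) →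
    ∀ᶠ i in atTop, u i = u' i

/-- A continuous family at time `t`. -/
def Fml (M : ℝ × ℂ → F → Prop) (t : ℝ) (W : ℂ → F) : Prop := Continuous W ∧ ∀ c, M (t, c) (W c)

end

end Pool.Agent.Lib.MP_7ed551_gt.Cy
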