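import Pool.Agent.Lib.MP_7ed551_gt.Cy.C.Del1

/-! Frames and the linearised equation. -/

open scoped ContDiff Topology
open Set Filter Metric Real

noncomputable section

namespace Pool.Agent.Lib.MP_7ed551_gt.Cy

open Pool.Agent.Lib.MP_ccffa6_gt

variable {J Φ Ψ : E → E →L[ℝ] E} {K : Set E} {u : ℂ → E}

theorem del_slice {V : Type} [NormedAddCommGroup V] [NormedSpace ℝ V] {F : E → V} {z c : ℂ}
    (hF : DifferentiableAt ℝ F (z, c)) (a : ℂ) :
    fderiv ℝ (fun ζ => F (ζ, c)) z a = fderiv ℝ F (z, c) (a, 0) := by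
  have h : fderiv ℝ (fun ζ => F (ζ, c)) z = _ :=
    (hF.hasFDerivAt.comp z (hasFDerivAt_prodMk_left z c)).fderiv
  rw [h]
  rfl

theorem del_db {X : ℂ → E} {z : ℂ} (hX : DifferentiableAt ℝ X z) :
    db (fun w => J0 (X w)) z = J0 (db X z) := by
  have h : fderiv ℝ (fun w => J0 (X w)) z = _ := (J0.hasFDerivAt.comp z hX.hasFDerivAt).fderiv
  rw [db, db, px, py, h, map_add]
  rfl

theorem del_smul (α : ℂ) (x : E) : α • x = α.re • x + α.im • J0 x := by
  rw [J0_apply, ← Complex.coe_smul, ← Complex.coe_smul, smul_smul, ← add_smul, Complex.re_add_im]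

/- Differentiate `fderiv F x (1, 0) + J (F x) (fderiv F x (I, 0)) = 0` in the direction `v` and use
the symmetry of the second derivative. -/
theorem lpt_fam (hJ : ContDiff ℝ ∞ J) {F : E → E} (hF : ContDiff ℝ ∞ F)
    (h : ∀ c, JHol J (fun ζ => F (ζ, c)) univ) (c : ℂ) (v : E) (z : ℂ) :
    Lpt J (fun ζ => F (ζ, c)) (fun ζ => fderiv ℝ F (ζ, c) v) z = 0 := by
  have d0 := hF.differentiable (by simp)
  have s1 : ContDiff ℝ ∞ (fderiv ℝ F) := hF.fderiv_right (by simp)
  have d1 := (s1.differentiable (by simp) (z, c)).hasFDerivAt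
  have d2 := (hJ.differentiable (by simp) (F (z, c))).hasFDerivAt.comp (z, c)
    (d0 (z, c)).hasFDerivAt
  have e0 : (fun x => fderiv ℝ F x (1, 0) + J (F x) (fderiv ℝ F x (Complex.I, 0))) =
      fun _ => 0 := funext fun x => by
    have := (h x.2 x.1 trivial).2
    rw [px, py, del_slice (d0 _), del_slice (d0 _)] at this
    exact add_eq_zero_iff_eq_neg.2 this
  have d3 : HasFDerivAt (fun x => fderiv ℝ F x (1, 0) + J (F x) (fderiv ℝ F x (Complex.I, 0))) _
      (z, c) := (d1.clm_apply (hasFDerivAt_const _ _)).add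
    (d2.clm_apply (d1.clm_apply (hasFDerivAt_const _ _)))
  rw [e0] at d3
  have e1 := DFunLike.congr_fun (d3.unique (hasFDerivAt_const _ _)) v
  have e2 : ∀ a : ℂ, fderiv ℝ (fun ζ => fderiv ℝ F (ζ, c) v) z a =
      fderiv ℝ (fderiv ℝ F) (z, c) v (a, 0) := fun a => by
    have d4 : HasFDerivAt (fun x => fderiv ℝ F x v) _ (z, c) :=
      d1.clm_apply (hasFDerivAt_const v _)
    rw [del_slice d4.differentiableAt, d4.fderiv,
      (hF.contDiffAt.of_le (m := 2) (by norm_cast)).isSymmSndFDerivAt (by simp) v (a, 0)]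
    simp
  rw [Lpt, px, py, py, e2, e2, del_slice (d0 _)]
  simpa [add_assoc] using e1

/- `lpt_fam` for `F x = u x.1`. -/
theorem lpt_px (hJ : ContDiff ℝ ∞ J) (hu : ContDiff ℝ ∞ u) (h : JHol J u univ) (z : ℂ) :
    Lpt J u (px u) z = 0 ∧ Lpt J u (py u) z = 0 := by
  have e : ∀ (a : ℂ) (ζ : ℂ), fderiv ℝ (fun x : E => u x.1) (ζ, 0) (a, 0) = fderiv ℝ u ζ a :=
    fun a ζ => (del_slice (F := fun x : E => u x.1)
      ((hu.comp contDiff_fst).differentiable (by simp) _) a).symm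
  have k := fun a : ℂ => lpt_fam hJ (F := fun x : E => u x.1) (hu.comp contDiff_fst)
    (fun _ => h) 0 (a, 0) z
  simp only [e] at k
  exact ⟨k 1, k Complex.I⟩

/- `lin_alt` for `X = Ψ (px u)`, `η = Ψ Y`; `Φ (J0 X) = py u`, `Φ (α • X) = fderiv u z α`. -/
theorem Frm.delta (hS : SimGStmt) (h : Frm J K Φ Ψ) (hu : ContDiff ℝ ∞ u) (hh : JHol J u univ)
    {R : ℝ} (hR : ∀ z, R ≤ ‖z‖ → u z ∉ K) (hi : ∀ z, px u z ≠ 0) {a e : ℂ} (ha : a ≠ 0)
    (lX : Tendsto (px u) (cocompact ℂ) (𝓝 (a, 0))) {Y : ℂ → E} (hY : ContDiff ℝ ∞ Y)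
    (hL : ∀ z, Lpt J u Y z = 0) (lY : Tendsto Y (cocompact ℂ) (𝓝 (0, e))) :
    (e = 0 → ∀ z, Y z = 0) ∧ (e ≠ 0 → ∀ z (α : ℂ), Y z ≠ fderiv ℝ u z α) := by
  have sp : ContDiff ℝ ∞ (px u) := (hu.fderiv_right (m := ∞) (by simp)).clm_apply contDiff_const
  have sX : ContDiff ℝ ∞ fun w => Ψ (u w) (px u w) := (h.smΨ.comp hu).clm_apply sp
  have sη : ContDiff ℝ ∞ fun w => Ψ (u w) (Y w) := (h.smΨ.comp hu).clm_apply hY
  have dX := sX.differentiable (by simp)
  have eJ : ∀ w, Φ (u w) (J0 (Ψ (u w) (px u w))) = py u w := fun w => by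
    rw [h.int, h.right, (hh w trivial).1]
  have far : ∀ᶠ z in cocompact ℂ, u z ∉ K := by
    filter_upwards [(isCompact_closedBall (0 : ℂ) R).compl_mem_cocompact] with z hz
    exact hR z (le_of_lt (by simpa using hz))
  obtain ⟨k1, k2⟩ := lin_alt hS (h.contDiff_A hu).continuous (fun z hz => h.A_far hu (hR z hz))
    sX sη (fun z e => hi z (by rw [← h.right (u z) (px u z), e, map_zero])) (fun z => by
      rw [← h.conj hu (dX z)]
      simp only [h.right]
      rw [(lpt_px h.smJ hu hh z).1, map_zero]) (fun z => by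
      rw [← del_db (dX z), ← h.conj hu (η := fun w => J0 (Ψ (u w) (px u w)))
        (J0.differentiableAt.comp z (dX z))]
      simp only [eJ]
      rw [(lpt_px h.smJ hu hh z).2, map_zero]) (fun z => by
      rw [← h.conj hu (sη.differentiable (by simp) z)]
      simp only [h.right]
      rw [hL, map_zero]) ha
    (lX.congr' (far.mono fun z hz => ((h.far _ hz _).2).symm))
    (lY.congr' (far.mono fun z hz => ((h.far _ hz _).2).symm))
  refine ⟨fun he z => ?_, fun he z α e => k2 he z α ?_⟩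
  · rw [← h.right (u z) (Y z), k1 he z, map_zero]
  · rw [e, ← h.left (u z) (α • _), del_smul, map_add, map_smul, map_smul, eJ, h.right, px, py,
      ← map_smul, ← map_smul, ← map_add]
    congr 2
    simp

end Pool.Agent.Lib.MP_7ed551_gt.Cy
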