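import Pool.Agent.Lib.MP_7ed551_gt.Cy.C.Lin
import Pool.Agent.Lib.MP_ccffa6_gt.T.CRect

/-! Frames and the linearised equation. -/

open scoped ContDiff Topology
open Set Filter Metric Real

noncomputable section

namespace Pool.Agent.Lib.MP_7ed551_gt.Cy

open Pool.Agent.Lib.MP_ccffa6_gt

/- `Φ x = (1 / 2) • (1 - J (t, x) ∘ J0)`, so `Φ x (J0 v) = (J0 v + J (t, x) v) / 2`; it is injective
because `J0 = J (0, x)` and `J (t, x)` are tamed by the same form; `Ψ x = (Φ x).inverse`
(`ContinuousLinearMap.inverse`, `contDiffAt_map_inverse`). -/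
theorem Path.frm {Λ : Form1 E} {J : ℝ × E → E →L[ℝ] E} {K : Set E} (h : Path Λ J K) (t : ℝ) :
    ∃ Φ Ψ, Frm (fun y => J (t, y)) K Φ Ψ := by
  have a := h.amb t
  have s0 : ∀ v, J0 (J0 v) = -v := fun v => by rw [← h.zero 0, h.sq]
  set Φ : E → E →L[ℝ] E := fun x => (1 / 2 : ℝ) • (1 - (J (t, x)).comp J0) with hΦ
  have e : ∀ x v, Φ x v = (1 / 2 : ℝ) • (v - J (t, x) (J0 v)) := fun x v => rfl
  have hi : ∀ x, (Φ x).IsInvertible := fun x => by
    have : Function.Injective (Φ x) := (injective_iff_map_eq_zero _).2 fun v hv => by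
      by_contra h0
      have h1 : J (t, x) (J0 v) = v := by
        rw [e, smul_eq_zero, sub_eq_zero] at hv
        exact (hv.resolve_left (by norm_num)).symm
      have h2 : J (t, x) v = -J0 v := by rw [← h.sq (t, x), h1]
      have h3 := h.tame (t, x) v h0
      have h4 := h.tame (0, x) v h0
      rw [h2, map_neg] at h3
      rw [h.zero] at h4
      linarith
    exact ⟨(LinearEquiv.ofInjectiveEndo (Φ x).toLinearMap this).toContinuousLinearEquiv, rfl⟩
  have hs : ContDiff ℝ ∞ Φ := (contDiff_const.sub (a.smJ.clm_comp contDiff_const)).const_smul _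
  have f : ∀ x, x ∉ K → ∀ v, Φ x v = v := fun x hx v => by
    rw [e, h.farJ (t, x) hx, s0]
    module
  refine ⟨Φ, fun x => (Φ x).inverse, a.smJ, a.sq, h.cpt, a.farJ, hs, contDiff_iff_contDiffAt.2
    fun x => (hi x).contDiffAt_map_inverse.comp x hs.contDiffAt, fun x => (hi x).inverse_apply_self,
    fun x => (hi x).self_apply_inverse, fun x v => ?_, fun x hx v => ⟨f x hx v, ?_⟩⟩
  · rw [e, e, s0, map_smul, map_sub, h.sq, map_neg]
    module
  · conv_lhs => rw [← f x hx v]
    exact (hi x).inverse_apply_self v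

end Pool.Agent.Lib.MP_7ed551_gt.Cy
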