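import Pool.Agent.Lib.MP_7ed551_gt.Cy.C.Del0

/-! Frames and the linearised equation. -/

open scoped ContDiff Topology
open Set Filter Metric Real

noncomputable section

namespace Pool.Agent.Lib.MP_7ed551_gt.Cy

open Pool.Agent.Lib.MP_ccffa6_gt

variable {J Φ Ψ : E → E →L[ℝ] E} {K : Set E} {u : ℂ → E}

theorem lpt_congr {v ξ θ : ℂ → E} {z : ℂ} (h : u =ᶠ[𝓝 z] v) (h' : ξ =ᶠ[𝓝 z] θ) :
    Lpt J u ξ z = Lpt J v θ z := by
  simp only [Lpt, px, py, h.fderiv_eq, h'.fderiv_eq, h.eq_of_nhds, h'.eq_of_nhds]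

theorem Frm.conj (h : Frm J K Φ Ψ) (hu : ContDiff ℝ ∞ u) {η : ℂ → E} {z : ℂ}
    (hη : DifferentiableAt ℝ η z) :
    Ψ (u z) (Lpt J u (fun w => Φ (u w) (η w)) z) = db η z + Aop J Φ Ψ u z (η z) := by
  have d : DifferentiableAt ℝ (fun w => Φ (u w)) z := (h.smΦ.comp hu).differentiable (by simp) z
  have e := (d.hasFDerivAt.clm_apply hη.hasFDerivAt).fderiv
  simp only [Lpt, db, Aop, px, py, e]
  simp [← h.int, h.left]
  abel

theorem Frm.contDiff_A (h : Frm J K Φ Ψ) (hu : ContDiff ℝ ∞ u) : ContDiff ℝ ∞ (Aop J Φ Ψ u) := by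
  have a := h.smΦ.comp hu
  have b : ContDiff ℝ ∞ (fderiv ℝ fun w => Φ (u w)) := a.fderiv_right (by simp)
  have c : ContDiff ℝ ∞ (fderiv ℝ J) := h.smJ.fderiv_right (by simp)
  have d : ContDiff ℝ ∞ (fderiv ℝ u) := hu.fderiv_right (by simp)
  have f : ContDiff ℝ ∞ fun z => (fderiv ℝ J (u z)).flip (py u z) :=
    contDiff_clm_apply_iff.2 fun v =>
      ((c.comp hu).clm_apply contDiff_const).clm_apply (d.clm_apply contDiff_const)
  exact (h.smΨ.comp hu).clm_comp (((b.clm_apply contDiff_const).add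
    ((h.smJ.comp hu).clm_comp (b.clm_apply contDiff_const))).add
    (f.clm_comp a))

theorem Frm.A_far (h : Frm J K Φ Ψ) (hu : ContDiff ℝ ∞ u) {z : ℂ} (hz : u z ∉ K) :
    Aop J Φ Ψ u z = 0 := by
  have o := h.cpt.isClosed.isOpen_compl.mem_nhds hz
  have a : (fun w => Φ (u w)) =ᶠ[𝓝 z] fun _ => 1 :=
    (hu.continuous.continuousAt.eventually o).mono fun w hw =>
      ContinuousLinearMap.ext fun v => (h.far _ hw v).1
  have b : J =ᶠ[𝓝 (u z)] fun _ => J0 := mem_of_superset o fun x hx => h.farJ x hx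
  simp [Aop, px, py, a.fderiv_eq, b.fderiv_eq]

end Pool.Agent.Lib.MP_7ed551_gt.Cy
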