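import Pool.Agent.Lib.MP_7ed551_gt.Cy.C.Def
import Pool.Agent.Lib.MP_ccffa6_gt.T.EMain

/-! Elliptic estimates with a parameter. -/

open scoped ContDiff Topology
open Set Filter Metric Real

noncomputable section

namespace Pool.Agent.Lib.MP_7ed551_gt.Cy

open Pool.Agent.Lib.MP_ccffa6_gt

/- `t_ereg2` for `z ↦ (z, ξ z)` in `V = ℂ × E` with
`J' (z, x) (a, v) = (I * a, j z v + a.re • j z (B z x) + a.im • B z x)`. -/
theorem lin_reg {j B : ℂ → E →L[ℝ] E} (hj : ContDiff ℝ ∞ j) (hB : ContDiff ℝ ∞ B)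
    (hs : ∀ z v, j z (j z v) = -v) {ξ : ℂ → E} (hξ : ContDiff ℝ 2 ξ)
    (h : ∀ z, px ξ z + j z (py ξ z) + B z (ξ z) = 0) : ContDiff ℝ ∞ ξ := by
  let P := ContinuousLinearMap.fst ℝ ℂ E
  let J : ℂ × E → ℂ × E →L[ℝ] ℂ × E := fun p => (Complex.I • P).prod
    ((j p.1).comp (.snd ℝ ℂ E) + (Complex.reCLM.comp P).smulRight (j p.1 (B p.1 p.2)) +
      (Complex.imCLM.comp P).smulRight (B p.1 p.2))
  have e : ∀ p y, J p y = (Complex.I * y.1,
      j p.1 y.2 + y.1.re • j p.1 (B p.1 p.2) + y.1.im • B p.1 p.2) := fun _ _ => rfl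
  have b : ContDiff ℝ ∞ fun p : ℂ × E => B p.1 p.2 := hB.fst'.clm_apply contDiff_snd
  have hJ : ContDiff ℝ ∞ J := contDiff_clm_apply_iff.2 fun y => by
    simp only [e]
    exact contDiff_const.prodMk (((hj.fst'.clm_apply contDiff_const).add
      ((hj.fst'.clm_apply b).const_smul _)).add (b.const_smul _))
  refine (contDiffOn_univ.1 (t_ereg2 (u := fun z => (z, ξ z)) hJ isOpen_univ
    (fun z _ => (contDiff_id.prodMk hξ).contDiffAt) fun z _ => ?_)).snd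
  have d := ((hasFDerivAt_id z).prodMk (hξ.differentiable two_ne_zero z).hasFDerivAt).fderiv
  have k : fderiv ℝ ξ z 1 = -(j z (fderiv ℝ ξ z Complex.I) + B z (ξ z)) :=
    eq_neg_of_add_eq_zero_left ((add_assoc _ _ _).symm.trans (h z))
  simp only [id] at d
  simp [px, py, d, e, k, hs]

theorem lpt_reg {J : E → E →L[ℝ] E} (hJ : ContDiff ℝ ∞ J) (hs : ∀ x v, J x (J x v) = -v)
    {u ξ : ℂ → E} (hu : ContDiff ℝ ∞ u) (hξ : ContDiff ℝ 2 ξ) (h : ∀ z, Lpt J u ξ z = 0) :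
    ContDiff ℝ ∞ ξ :=
  lin_reg (B := fun z => (fderiv ℝ J (u z)).flip (py u z)) (hJ.comp hu)
    (((ContinuousLinearMap.flipₗᵢ ℝ E E E).contDiff.comp ((hJ.fderiv_right (by simp)).comp
      hu)).clm_apply ((hu.fderiv_right (by simp)).clm_apply contDiff_const))
    (fun _ => hs _) hξ h

end Pool.Agent.Lib.MP_7ed551_gt.Cy
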