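import Pool.Agent.Lib.MP_7ed551_gt.Cy.C.Evl1

/-! Evaluation, kernels, Laurent splitting, implicit functions. -/

open scoped ContDiff Topology
open Set Filter Metric Real

noncomputable section

namespace Pool.Agent.Lib.MP_7ed551_gt.Cy

open Pool.Agent.Lib.MP_ccffa6_gt
open Pool.Agent.Lib.MP_ccffa6_gt.WA (fn)

section

variable {V : Type} [NormedAddCommGroup V] [NormedSpace ℝ V] [FiniteDimensional ℝ V]

/- `BA.of_bounds` for the family indexed by the unit ball, then `LinearMap.mkContinuous` or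
`ContinuousLinearMap.ofBound`; `Per.iteratedFDeriv` and `Wi.per_bound` bound the kernel. -/
theorem exists_ker {A : Type} [NormedAddCommGroup A] [NormedSpace ℝ A] {κ : ℂ → A →L[ℝ] V}
    (hκ : ContDiff ℝ ∞ κ) (hp : Per κ) (j : ℕ) :
    ∃ S : A →L[ℝ] WA j V, ∀ a z, fn (S a) z = κ z a := by
  have hs : ∀ a, ContDiff ℝ ∞ fun z => κ z a := fun a => hκ.clm_apply contDiff_const
  have hq : ∀ a, Per fun z => κ z a := fun a z => by simp only [hp z, and_self]
  let L : A →ₗ[ℝ] WA j V :=
    { toFun := fun a => WA.mk _ (Wi.memA_of_smooth (hs a) (hq a) j)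
      map_add' := fun a b => WA.ext fun z => (κ z).map_add a b
      map_smul' := fun c a => WA.ext fun z => (κ z).map_smul c a }
  obtain ⟨C, hC⟩ := Wi.BA.of_bounds (u := fun (a : ball (0 : A) 1) z => κ z a) (fun a => hs a)
    (fun a => hq a) (fun i => by
      obtain ⟨C, hC⟩ := Wi.per_bound (hκ.continuous_iteratedFDeriv (m := i) (mod_cast le_top))
        (hp.iteratedFDeriv i)
      exact ⟨C, fun a z => (norm_iteratedFDeriv_clm_apply_const hκ.contDiffAt
        (mod_cast le_top)).trans ((mul_le_of_le_one_left (norm_nonneg _)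
          (mem_ball_zero_iff.1 a.2).le).trans (hC z))⟩) j
  exact ⟨L.mkContinuousOfExistsBound
    (LinearMap.bound_of_ball_bound one_pos C L fun a ha => (hC ⟨a, ha⟩).2), fun _ _ => rfl⟩

end

/- `IsCompactOperator.hasEigenvalue_or_mem_resolventSet` with `μ = -1`, then
`ContDiffAt.implicitFunction`. -/
theorem ift {X B : Type} [NormedAddCommGroup X] [NormedSpace ℝ X] [CompleteSpace X]
    [NormedAddCommGroup B] [NormedSpace ℝ B] [CompleteSpace B] {N : X × B → B} {x0 : X}
    {S : B →L[ℝ] B} (hN : ContDiff ℝ ∞ N) (h0 : N (x0, 0) = 0) (hS : IsCompactOperator S)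
    (hd : ∀ g, fderiv ℝ N (x0, 0) (0, g) = g + S g) (hi : ∀ g, g + S g = 0 → g = 0) :
    ∃ γ : X → B, γ x0 = 0 ∧ ContDiffAt ℝ ∞ γ x0 ∧
      ∀ᶠ p in 𝓝 (x0, (0 : B)), N p = 0 ↔ γ p.1 = p.2 := by
  have h1 : (fderiv ℝ N (x0, 0) ∘L .inr ℝ X B).IsInvertible := by
    rcases hS.hasEigenvalue_or_mem_resolventSet (μ := -1) (by simp) with h | h
    · obtain ⟨g, g1, g2⟩ := h.exists_hasEigenvector
      refine (g2 (hi g ?_)).elim
      rw [show S g = (-1 : ℝ) • g from Module.End.mem_eigenspace_iff.1 g1, neg_one_smul,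
        add_neg_cancel]
    · obtain ⟨u, hu⟩ := IsUnit.neg h
      refine ⟨.ofUnit u, ContinuousLinearMap.ext fun g => (DFunLike.congr_fun hu g).trans ?_⟩
      simp [hd, add_comm, Algebra.algebraMap_eq_smul_one]
  have h2 := hN.contDiffAt (x := (x0, 0))
  exact ⟨_, h2.implicitFunction_apply_self (by simp) h1, h2.contDiffAt_implicitFunction (by simp) h1,
    h0 ▸ h2.eventually_apply_eq_iff_implicitFunction (by simp) h1⟩

end Pool.Agent.Lib.MP_7ed551_gt.Cy
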