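import Pool.Agent.Lib.MP_7ed551_gt.Cy.C.Def
import Pool.Agent.Lib.MP_ccffa6_gt.T.Base0

/-! Evaluation, kernels, Laurent splitting, implicit functions. -/

open scoped ContDiff Topology
open Set Filter Metric Real

noncomputable section

namespace Pool.Agent.Lib.MP_7ed551_gt.Cy

open Pool.Agent.Lib.MP_ccffa6_gt
open Pool.Agent.Lib.MP_ccffa6_gt.WA (fn)

variable {V : Type} [NormedAddCommGroup V] [NormedSpace ℝ V] [FiniteDimensional ℝ V]

/- Mean value inequality, `norm_fderiv_le_px_py`, `WA.norm_fn_le` for `dx`, `dy` (norm at most one,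
`MemA.dx`). -/
theorem ev_lip {k : ℕ} (u : WA (k + 1) V) (z w : ℂ) :
    ‖fn u z - fn u w‖ ≤ 2 * ‖u‖ * ‖z - w‖ := by
  refine convex_univ.norm_image_sub_le_of_norm_fderiv_le (𝕜 := ℝ)
    (fun y _ => WA.diffAt u.memA_fn y) (fun y _ => ?_) (mem_univ w) (mem_univ z)
  rw [two_mul]
  exact (norm_fderiv_le_px_py _ y).trans (add_le_add
    ((WA.norm_fn_le (WA.dx u) y).trans u.memA_fn.dx.2)
    ((WA.norm_fn_le (WA.dy u) y).trans u.memA_fn.dy.2))

/- The remainder is at most `4 ‖u‖ ‖w - z‖ ^ 2` (mean value inequality and `ev_lip`). -/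
theorem hasFDerivAt_ev {k : ℕ} (z : ℂ) :
    HasFDerivAt (fun w => (WA.ev w : WA (k + 2) V →L[ℝ] V))
      (Complex.reCLM.smulRight ((WA.ev z).comp WA.dx) +
        Complex.imCLM.smulRight ((WA.ev z).comp WA.dy)) z := by
  refine .of_isLittleO ((Asymptotics.IsBigO.of_bound 4 ?_).trans_isLittleO
    (Asymptotics.isLittleO_pow_sub_sub z one_lt_two))
  refine .of_forall fun w => ContinuousLinearMap.opNorm_le_bound _ (by positivity) fun u => ?_
  have h := (convex_closedBall z ‖w - z‖).norm_image_sub_le_of_norm_fderiv_le' (𝕜 := ℝ)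
    (φ := fderiv ℝ (fn u) z) (C := 4 * ‖u‖ * ‖w - z‖) (fun y _ => WA.diffAt u.memA_fn y)
    (fun y hy => by
      have h1 := norm_fderiv_le_px_py (fderiv ℝ (fn u) y - fderiv ℝ (fn u) z) 0
      rw [px, py, ContinuousLinearMap.fderiv] at h1
      have h2 := (ev_lip (WA.dx u) y z).trans (mul_le_mul (mul_le_mul_of_nonneg_left
        u.memA_fn.dx.2 two_pos.le) (mem_closedBall_iff_norm.1 hy) (norm_nonneg _)
        (mul_nonneg two_pos.le (norm_nonneg u)))
      have h3 := (ev_lip (WA.dy u) y z).trans (mul_le_mul (mul_le_mul_of_nonneg_left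
        u.memA_fn.dy.2 two_pos.le) (mem_closedBall_iff_norm.1 hy) (norm_nonneg _)
        (mul_nonneg two_pos.le (norm_nonneg u)))
      exact h1.trans ((add_le_add h2 h3).trans_eq (by rw [WA.norm_fn]; ring)))
    (mem_closedBall_self (norm_nonneg _)) (mem_closedBall_iff_norm.2 le_rfl)
  rw [fderiv_eq_px_py] at h
  exact h.trans_eq (by rw [norm_pow, norm_norm]; ring)

/- Induction on `n`. -/
theorem contDiff_ev (n : ℕ) : ContDiff ℝ n fun w => (WA.ev w : WA (n + 1) V →L[ℝ] V) := by
  induction n with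
  | zero =>
    refine contDiff_zero.2 (LipschitzWith.of_dist_le_mul (K := 2) fun z w => ?_).continuous
    rw [dist_eq_norm, dist_eq_norm]
    exact ContinuousLinearMap.opNorm_le_bound _ (by positivity) fun u =>
      (ev_lip u z w).trans_eq (mul_right_comm _ _ _)
  | succ n ih =>
    exact contDiff_succ_iff_hasFDerivAt.2 ⟨_, (contDiff_const.smulRight
      (ih.clm_comp contDiff_const)).add (contDiff_const.smulRight (ih.clm_comp contDiff_const)),
      hasFDerivAt_ev⟩

end Pool.Agent.Lib.MP_7ed551_gt.Cy
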