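import Pool.Agent.Lib.MP_7ed551_gt.Cy.C.Evl0

/-! Evaluation, kernels, Laurent splitting, implicit functions. -/

open scoped ContDiff Topology
open Set Filter Metric Real

noncomputable section

namespace Pool.Agent.Lib.MP_7ed551_gt.Cy

open Pool.Agent.Lib.MP_ccffa6_gt
open Pool.Agent.Lib.MP_ccffa6_gt.WA (fn)

section

variable {F : Type} [NormedAddCommGroup F] [NormedSpace ℂ F] {f : ℂ → F} {r : ℝ} {z : ℂ}

theorem evl1_ne (hz : ‖z‖ ≠ r) {s : ℂ} (hs : s ∈ sphere (0 : ℂ) r) : s - z ≠ 0 := fun e =>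
  hz (sub_eq_zero.1 e ▸ mem_sphere_zero_iff_norm.1 hs)

theorem evl1_cont (hz : ‖z‖ ≠ r) : ContinuousOn (fun s => (s - z)⁻¹) (sphere (0 : ℂ) r) :=
  (continuousOn_id.sub continuousOn_const).inv₀ fun _ => evl1_ne hz

theorem evl1_diff (hr : 0 ≤ r) (hf : ContinuousOn f (sphere 0 r)) (hz : ‖z‖ ≠ r) :
    DifferentiableAt ℂ (fun w => ∮ s in C(0, r), (s - w)⁻¹ • f s) z := by
  obtain ⟨M, hM⟩ := (isCompact_sphere 0 r).exists_bound_of_continuousOn hf
  obtain ⟨d, hd, h1⟩ : ∃ d : ℝ, 0 < d ∧ ∀ s ∈ sphere (0 : ℂ) r, 2 * d ≤ ‖s - z‖ :=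
    ⟨|r - ‖z‖| / 2, half_pos (abs_pos.2 (sub_ne_zero.2 hz.symm)), fun s hs => by
      rw [mul_div_cancel₀ _ two_ne_zero, ← mem_sphere_zero_iff_norm.1 hs]
      exact abs_norm_sub_norm_le s z⟩
  refine HasDerivAt.differentiableAt (f' := ∮ s in C(0, r), (s - z)⁻¹ ^ 2 • f s)
    (hasDerivAt_iff_isLittleO.2 ((Asymptotics.IsBigO.of_bound (2 * π * r * (d⁻¹ ^ 3 * M))
      ?_).trans_isLittleO (Asymptotics.isLittleO_pow_sub_sub z one_lt_two)))
  filter_upwards [ball_mem_nhds z hd] with w hw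
  have h2 : ∀ s ∈ sphere (0 : ℂ) r, d ≤ ‖s - w‖ := fun s hs => by
    linarith [h1 s hs, mem_ball_iff_norm.1 hw, norm_sub_le_norm_sub_add_norm_sub s w z]
  have h3 : ContinuousOn (fun s => (s - w)⁻¹) (sphere (0 : ℂ) r) :=
    (continuousOn_id.sub continuousOn_const).inv₀ fun s hs => norm_pos_iff.1 (hd.trans_le (h2 s hs))
  have h4 := (h3.fun_smul hf).fun_sub ((evl1_cont hz).fun_smul hf)
  rw [← circleIntegral.integral_sub ((h3.fun_smul hf).circleIntegrable hr)
    (((evl1_cont hz).fun_smul hf).circleIntegrable hr), ← circleIntegral.integral_smul,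
    ← circleIntegral.integral_sub (h4.circleIntegrable hr)
      (((((evl1_cont hz).fun_pow 2).fun_smul hf).fun_const_smul (w - z)).circleIntegrable hr), mul_assoc]
  refine circleIntegral.norm_integral_le_of_norm_le_const hr fun s hs => ?_
  have a1 := evl1_ne hz hs
  have a2 := norm_pos_iff.1 (hd.trans_le (h2 s hs))
  have e : (s - w)⁻¹ - (s - z)⁻¹ - (w - z) * (s - z)⁻¹ ^ 2 =
      (s - w)⁻¹ * (s - z)⁻¹ ^ 2 * (w - z) ^ 2 := by
    field_simp
    ring
  rw [smul_smul, ← sub_smul, ← sub_smul, e, norm_smul, norm_mul, norm_mul, norm_pow, norm_pow,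
    norm_inv, norm_inv, norm_pow, norm_norm, mul_right_comm, pow_succ' d⁻¹]
  have a3 : d ≤ ‖s - z‖ := by linarith [h1 s hs]
  gcongr
  exacts [h2 s hs, hM s hs]

theorem evl1_lim (hr : 0 ≤ r) (hf : ContinuousOn f (sphere 0 r)) :
    Tendsto (fun w => ∮ s in C(0, r), (s - w)⁻¹ • f s) (cocompact ℂ) (𝓝 0) := by
  obtain ⟨M, hM⟩ := (isCompact_sphere 0 r).exists_bound_of_continuousOn hf
  have h1 := tendsto_norm_cocompact_atTop (E := ℂ)
  have h2 := ((tendsto_atTop_add_const_right _ (-r) h1).inv_tendsto_atTop.mul_const M).const_mul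
    (2 * π * r)
  rw [zero_mul, mul_zero] at h2
  refine squeeze_zero_norm' ((h1.eventually_gt_atTop r).mono fun w hw =>
    circleIntegral.norm_integral_le_of_norm_le_const hr fun s hs => ?_) h2
  have a1 : ‖w‖ + -r ≤ ‖s - w‖ := by
    linarith [norm_sub_norm_le w s, norm_sub_rev w s, mem_sphere_zero_iff_norm.1 hs]
  have a2 : 0 < ‖w‖ + -r := by linarith
  rw [norm_smul, norm_inv, Pi.inv_apply]
  gcongr
  exact hM s hs

theorem evl1_slope [CompleteSpace F] (hr : 0 ≤ r) (hf : ContinuousOn f (sphere 0 r))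
    (hz : ‖z‖ ≠ r) : (∮ s in C(0, r), dslope f z s) =
      (∮ s in C(0, r), (s - z)⁻¹ • f s) - (∮ s in C(0, r), (s - z)⁻¹) • f z := by
  rw [← circleIntegral.integral_smul_const, ← circleIntegral.integral_sub
    (((evl1_cont hz).fun_smul hf).circleIntegrable hr)
    (((evl1_cont hz).fun_smul continuousOn_const).circleIntegrable hr)]
  refine circleIntegral.integral_congr hr fun s hs => ?_
  simp only [dslope_of_ne _ (sub_ne_zero.1 (evl1_ne hz hs)), slope_def_module, smul_sub]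

end

theorem laurent {F : Type} [NormedAddCommGroup F] [NormedSpace ℂ F] [CompleteSpace F] {W : ℂ → F}
    (hW : ∀ z, 3 / 2 < ‖z‖ → ‖z‖ < 3 → DifferentiableAt ℂ W z) :
    ∃ H G : ℂ → F, (∀ z, ‖z‖ < 14 / 5 → DifferentiableAt ℂ H z) ∧
      (∀ z, 8 / 5 < ‖z‖ → DifferentiableAt ℂ G z) ∧ Tendsto G (cocompact ℂ) (𝓝 0) ∧
      ∀ z, 8 / 5 < ‖z‖ → ‖z‖ < 14 / 5 → W z = H z + G z := by
  have hc : ∀ r : ℝ, 3 / 2 < r → r < 3 → ContinuousOn W (sphere 0 r) := fun r a b s hs =>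
    have e := mem_sphere_zero_iff_norm.1 hs
    (hW s (e ▸ a) (e ▸ b)).continuousAt.continuousWithinAt
  have c1 := hc (14 / 5) (by norm_num) (by norm_num)
  have c2 := hc (8 / 5) (by norm_num) (by norm_num)
  have p1 : (0 : ℝ) ≤ 14 / 5 := by norm_num
  have p2 : (0 : ℝ) ≤ 8 / 5 := by norm_num
  refine ⟨fun w => (2 * π * Complex.I)⁻¹ • ∮ s in C(0, 14 / 5), (s - w)⁻¹ • W s,
    fun w => -(2 * π * Complex.I)⁻¹ • ∮ s in C(0, 8 / 5), (s - w)⁻¹ • W s,
    fun z hz => (evl1_diff p1 c1 hz.ne).const_smul _,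
    fun z hz => (evl1_diff p2 c2 hz.ne').const_smul _,
    by simpa only [smul_zero] using (evl1_lim p2 c2).const_smul (-(2 * π * Complex.I)⁻¹), fun z a b => ?_⟩
  have hd : ∀ s ∈ closedBall (0 : ℂ) (14 / 5) \ ball 0 (8 / 5), DifferentiableAt ℂ W s :=
    fun s hs => hW s (by linarith [not_lt.1 (mt mem_ball_zero_iff.2 hs.2)])
      (by linarith [mem_closedBall_zero_iff.1 hs.1])
  have h1 := Complex.circleIntegral_eq_of_differentiable_on_annulus_off_countable (c := 0)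
    (r := 8 / 5) (R := 14 / 5) (by norm_num) (by norm_num) (f := dslope W z)
    (countable_singleton z) (fun s hs => by
      rcases eq_or_ne s z with rfl | e
      · exact (continuousAt_dslope_same.2 (hd s hs)).continuousWithinAt
      · exact ((continuousAt_dslope_of_ne e).2 (hd s hs).continuousAt).continuousWithinAt)
    fun s hs => (differentiableAt_dslope_of_ne hs.2).2
      (hd s ⟨ball_subset_closedBall hs.1.1, fun e => hs.1.2 (ball_subset_closedBall e)⟩)
  have h2 : (∮ s in C(0, 8 / 5), (s - z)⁻¹) = 0 :=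
    DiffContOnCl.circleIntegral_eq_zero p2 (DifferentiableOn.diffContOnCl
      ((differentiableOn_id.sub_const z).inv fun s hs e => by
        rw [closure_ball _ (by norm_num), mem_closedBall_zero_iff, show s = z from sub_eq_zero.1 e] at hs
        linarith))
  rw [evl1_slope p1 c1 b.ne, evl1_slope p2 c2 a.ne', h2, zero_smul, sub_zero,
    circleIntegral.integral_sub_inv_of_mem_ball (mem_ball_zero_iff.2 b)] at h1
  simp only [← h1, neg_smul, smul_sub, inv_smul_smul₀ Complex.two_pi_I_ne_zero]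
  abel

end Pool.Agent.Lib.MP_7ed551_gt.Cy
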