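import Pool.Agent.Lib.MP_7ed551_gt.Cy.C.Def
import Pool.Agent.Lib.MP_7ed551_gt.Cy.P.Ext
import Pool.Agent.Lib.MP_ccffa6_gt.T.Base0

/-! Holomorphic maps near infinity. -/

open scoped ContDiff Topology
open Set Filter Metric Real

noncomputable section

namespace Pool.Agent.Lib.MP_7ed551_gt.Cy

open Pool.Agent.Lib.MP_ccffa6_gt

/- `differentiableAt_of_cr`. -/
theorem hol_of_db {η : ℂ → E} {z : ℂ} (hd : DifferentiableAt ℝ η z) (h : db η z = 0) :
    DifferentiableAt ℂ η z := by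
  refine (differentiableAt_of_cr hd ?_).differentiableAt
  rw [eq_neg_of_add_eq_zero_left h, J0_apply, smul_neg, smul_smul, Complex.I_mul_I, neg_one_smul,
    neg_neg]

theorem db_of_hol {η : ℂ → E} {z : ℂ} (hd : DifferentiableAt ℂ η z) : db η z = 0 := by
  obtain ⟨h1, h2⟩ := cr_of_hasDerivAt hd.hasDerivAt
  rw [db, h1, h2, J0_apply, smul_smul, Complex.I_mul_I, neg_one_smul, add_neg_cancel]

theorem db_add {η θ : ℂ → E} {z : ℂ} (h : DifferentiableAt ℝ η z) (h' : DifferentiableAt ℝ θ z) :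
    db (fun w => η w + θ w) z = db η z + db θ z := by
  simp only [db, px, py, fderiv_fun_add h h', add_apply, map_add]
  abel

theorem db_sub {η θ : ℂ → E} {z : ℂ} (h : DifferentiableAt ℝ η z) (h' : DifferentiableAt ℝ θ z) :
    db (fun w => η w - θ w) z = db η z - db θ z := by
  simp only [db, px, py, fderiv_fun_sub h h', sub_apply, map_sub]
  abel

theorem db_congr {η θ : ℂ → E} {z : ℂ} (h : η =ᶠ[𝓝 z] θ) : db η z = db θ z := by
  simp only [db, px, py, h.fderiv_eq]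

theorem db_of_jhol {J : E → E →L[ℝ] E} {u : ℂ → E} (h : JHol J u univ) {z : ℂ}
    (hJ : J (u z) = J0) : db u z = 0 := by
  rw [db, (h z trivial).2, hJ, neg_add_cancel]

theorem hol_of_jhol {J : E → E →L[ℝ] E} {u : ℂ → E} (hu : ContDiff ℝ ∞ u) (h : JHol J u univ)
    {z : ℂ} (hJ : J (u z) = J0) : DifferentiableAt ℂ u z :=
  hol_of_db (hu.differentiable (by simp) z) (db_of_jhol h hJ)

theorem jhol_of_eq {J : E → E →L[ℝ] E} (hJ : ∀ x v, J x (J x v) = -v) {u : ℂ → E}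
    (h : ∀ z, px u z + J (u z) (py u z) = 0) : JHol J u univ := fun z _ => by
  have e := eq_neg_of_add_eq_zero_left (h z)
  exact ⟨by rw [e, map_neg, hJ, neg_neg], e⟩

/-- Liouville. -/
theorem liou {η : ℂ → E} (hd : Differentiable ℝ η) (h : ∀ z, db η z = 0)
    (hl : Tendsto η (cocompact ℂ) (𝓝 0)) (z : ℂ) : η z = 0 :=
  Differentiable.apply_eq_of_tendsto_cocompact (fun w => hol_of_db (hd w) (h w)) z hl

/- `ext_schwarz`, `ext_deriv` (Cy/P/Ext) for `z ↦ u z - (ρ z, c)`. -/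
theorem SLeaf.px_lim {ρ R : ℝ} {J : E → E →L[ℝ] E} {u : ℂ → E} {c : ℂ} (h : SLeaf ρ J u c)
    (hJ : ∀ z, R ≤ ‖z‖ → J (u z) = J0) : Tendsto (px u) (cocompact ℂ) (𝓝 ((ρ : ℂ), 0)) := by
  refine Metric.tendsto_nhds.2 fun ε hε => ?_
  obtain ⟨S, -, hS⟩ := hasBasis_cobounded_norm.eventually_iff.1
    (Metric.tendsto_nhds.1 (cobounded_eq_cocompact (α := ℂ) ▸ h.lim) (ε / 2) (half_pos hε))
  filter_upwards [tendsto_norm_cocompact_atTop.eventually_ge_atTop (max R S + 1)] with z hz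
  have a : ∀ w ∈ closedBall z 1, max R S ≤ ‖w‖ := fun w hw => by
    linarith [norm_sub_norm_le z w, mem_closedBall_iff_norm'.1 hw]
  have b : ∀ w ∈ closedBall z 1, HasDerivAt (fun w => u w - ((ρ : ℂ) * w, c))
      (px u w - ((ρ : ℂ), 0)) w := fun w hw => by
    have e := (hol_of_jhol h.sm h.hol (hJ w ((le_max_left _ _).trans (a w hw)))).hasDerivAt
    rw [(cr_of_hasDerivAt e).1]
    exact e.sub ((hasDerivAt_const_mul (ρ : ℂ)).prodMk (hasDerivAt_const w c))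
  have d := Complex.norm_deriv_le_of_forall_mem_sphere_norm_le one_pos
    (DifferentiableOn.diffContOnCl fun w hw =>
      (b w (closure_ball_subset_closedBall hw)).differentiableAt.differentiableWithinAt)
    fun w hw => (dist_zero_right _).symm.trans_le
      (hS ((le_max_right _ _).trans (a w (sphere_subset_closedBall hw)))).le
  rw [(b z (mem_closedBall_self one_pos.le)).deriv] at d
  rw [dist_eq_norm]
  linarith

theorem leaf_iff {J : E → E →L[ℝ] E} {u : ℂ → E} {c : ℂ} : Leaf J u c ↔ SLeaf 1 J u c :=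
  ⟨fun h => ⟨h.sm, h.hol, by simpa using h.lim⟩, fun h => ⟨h.sm, h.hol, by simpa using h.lim⟩⟩

theorem SLeaf.scale {ρ r : ℝ} (hr : 0 < r) {J : E → E →L[ℝ] E} {u : ℂ → E} {c : ℂ}
    (h : SLeaf ρ J u c) : SLeaf (ρ * r) J (fun z => u (r • z)) c := by
  refine ⟨h.sm.comp (contDiff_const_smul r), fun z _ => ?_, (h.lim.comp
    (Homeomorph.smulOfNeZero r hr.ne').isClosedEmbedding.tendsto_cocompact).congr fun z => ?_⟩
  · obtain ⟨h1, h2⟩ := h.hol (r • z) trivial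
    simp only [px, py, fderiv_comp_smul, smul_apply, map_smul] at h1 h2 ⊢
    exact ⟨congrArg _ h1, by rw [h2, smul_neg]⟩
  · simp [mul_assoc]

theorem leaf_triv {J : E → E →L[ℝ] E} {c : ℂ} (h : ∀ ζ, J (ζ, c) = J0) :
    Leaf J (fun ζ => (ζ, c)) c ∧ ∀ ζ, px (fun ζ : ℂ => ((ζ, c) : E)) ζ ≠ 0 := by
  have e : ∀ ζ : ℂ, fderiv ℝ (fun ζ : ℂ => ((ζ, c) : E)) ζ = .inl ℝ ℂ ℂ := fun ζ =>
    (hasFDerivAt_prodMk_left ζ c).fderiv
  exact ⟨⟨by fun_prop, fun ζ _ => by simp [px, py, e, h, J0_apply], by simp⟩,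
    fun ζ => by simp [px, e]⟩

end Pool.Agent.Lib.MP_7ed551_gt.Cy
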