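import Pool.Agent.Lib.MP_7ed551_gt.Cy.C.Fam0

/-! A smooth family of immersed leaves is a foliation. -/

open scoped ContDiff Topology
open Set Filter Metric Real

noncomputable section

namespace Pool.Agent.Lib.MP_7ed551_gt.Cy

open Pool.Agent.Lib.MP_ccffa6_gt

variable {J : E → E →L[ℝ] E} {K : Set E} {F : E → E}

/- `fderiv F (ζ, c) (α, e) = fderiv u ζ α + Y ζ`, `Y ζ = fderiv F (ζ, c) (0, e) → (0, e)` by
`fam_dec`; `lpt_fam`, `Frm.delta`; `fderiv u ζ α = 0` forces `α = 0` (apply `J`). -/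
theorem Frm.fam_inj (hS : SimGStmt) {Φ Ψ : E → E →L[ℝ] E} (hf : Frm J K Φ Ψ) (hF : ContDiff ℝ ∞ F)
    (h : ∀ c, Leaf J (fun ζ => F (ζ, c)) c ∧ ∀ ζ, px (fun ζ => F (ζ, c)) ζ ≠ 0) (x : E) :
    Function.Injective (fderiv ℝ F x) := by
  obtain ⟨ζ, c⟩ := x
  obtain ⟨C, hC⟩ := fam_dec hf.cpt hf.farJ hF fun c => (h c).1
  obtain ⟨ρ, C', -, -, hA⟩ := exists_apr hf.cpt
  have hl := (h c).1
  have d1 : ∀ z α, fderiv ℝ (fun ζ => F (ζ, c)) z α = fderiv ℝ F (z, c) (α, 0) := fun z α => by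
    have := ((hF.differentiable (by simp) (z, c)).hasFDerivAt.comp z
      (hasFDerivAt_prodMk_left (𝕜 := ℝ) z c)).fderiv
    exact congrArg (fun L : ℂ →L[ℝ] E => L α) this
  have tn : Tendsto (norm : ℂ → ℝ) (cocompact ℂ) atTop := tendsto_norm_cocompact_atTop
  have lim : ∀ v : E, Tendsto (fun z => fderiv ℝ F (z, c) v) (cocompact ℂ) (𝓝 v) := fun v => by
    have t1 : Tendsto (fun z : ℂ => C / ‖z‖ * ‖v‖) (cocompact ℂ) (𝓝 0) := by
      simpa using (tn.const_div_atTop C).mul_const ‖v‖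
    refine tendsto_iff_norm_sub_tendsto_zero.2 (squeeze_zero' (.of_forall fun _ => norm_nonneg _)
      ((tn.eventually_ge_atTop 1).mono fun z hz => ?_) t1)
    exact (fderiv ℝ F (z, c) - ContinuousLinearMap.id ℝ E).le_of_opNorm_le (hC (z, c) hz).2 v
  refine (injective_iff_map_eq_zero _).2 fun v hv => ?_
  obtain ⟨α, e⟩ := v
  have sp : fderiv ℝ F (ζ, c) (0, e) = fderiv ℝ (fun ζ => F (ζ, c)) ζ (-α) := by
    rw [d1, eq_comm, ← sub_eq_zero, ← map_sub, ← neg_eq_zero, ← map_neg, ← hv]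
    simp
  have he : e = 0 := by
    by_contra he
    exact (hf.delta hS hl.sm hl.hol (fun z hz => (((hA J hf.farJ _ _ hl).2 z).2 hz).1) (h c).2
      one_ne_zero ((lim (1, 0)).congr fun z => (d1 z 1).symm)
      (((hF.fderiv_right (by simp)).comp (contDiff_id.prodMk contDiff_const)).clm_apply
        contDiff_const) (lpt_fam hf.smJ hF (fun c => (h c).1.hol) c (0, e)) (lim (0, e))).2 he ζ _ sp
  subst he
  rw [← d1] at hv
  have a : fderiv ℝ (fun ζ => F (ζ, c)) ζ α = α.re • px (fun ζ => F (ζ, c)) ζ +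
      α.im • py (fun ζ => F (ζ, c)) ζ := by
    rw [px, py, ← map_smul, ← map_smul, ← map_add]
    congr 1
    apply Complex.ext <;> simp
  obtain ⟨j1, j2⟩ := hl.hol ζ (mem_univ _)
  rw [a] at hv
  have b := congrArg (J (F (ζ, c))) hv
  rw [map_add, map_smul, map_smul, ← j1, ← neg_eq_iff_eq_neg.2 j2, map_zero] at b
  have d : (α.re ^ 2 + α.im ^ 2) • px (fun ζ => F (ζ, c)) ζ = 0 := by
    linear_combination (norm := module) α.re • hv - α.im • b
  have f := (smul_eq_zero.1 d).resolve_right ((h c).2 ζ)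
  refine Prod.ext (Complex.ext ?_ ?_) rfl
  · change α.re = 0
    nlinarith [sq_nonneg α.re, sq_nonneg α.im]
  · change α.im = 0
    nlinarith [sq_nonneg α.re, sq_nonneg α.im]

theorem Frm.fam_fol (hS : SimGStmt) {Φ Ψ : E → E →L[ℝ] E} (hf : Frm J K Φ Ψ) (hF : ContDiff ℝ ∞ F)
    (h : ∀ c, Leaf J (fun ζ => F (ζ, c)) c ∧ ∀ ζ, px (fun ζ => F (ζ, c)) ζ ≠ 0) :
    ∃ P, Fol J F P := by
  obtain ⟨ρ, C, -, -, hA⟩ := exists_apr hf.cpt
  obtain ⟨P, h1, h2, h3⟩ := exists_inverse hF (hf.fam_inj hS hF h)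
    ⟨C, fun x => ((hA J hf.farJ _ _ (h x.2).1).2 x.1).1⟩
  exact ⟨P, hF, h1, h2, h3, fun c => (h c).1.hol,
    ⟨ρ, fun x hx => congrFun ((hA J hf.farJ _ _ (h x.2).1).1 hx) x.1⟩,
    fam_dec hf.cpt hf.farJ hF fun c => (h c).1⟩

end Pool.Agent.Lib.MP_7ed551_gt.Cy
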