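import Pool.Agent.Lib.MP_7ed551_gt.Cy.C.Apr
import Pool.Agent.Lib.MP_7ed551_gt.Cy.C.Del
import Pool.Agent.Lib.MP_7ed551_gt.Cy.B.Cov

/-! A smooth family of immersed leaves is a foliation. -/

open scoped ContDiff Topology
open Set Filter Metric Real

noncomputable section

namespace Pool.Agent.Lib.MP_7ed551_gt.Cy

open Pool.Agent.Lib.MP_ccffa6_gt

variable {J : E → E →L[ℝ] E} {K : Set E} {F : E → E}

/- `Apr`.  `F = id` on the open set `ρ < ‖c‖`, so `‖fderiv F - id‖ ≤ L` on `‖ζ‖ ≤ ρ` (compactness).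
For `ρ ≤ ‖ζ‖`: `ext_schwarz` (Cy/P/Ext) for the difference of two leaves minus `(0, c' - c)` shows that
`c ↦ F (ζ, c) - (ζ, c)` is Lipschitz with constant `L ρ / ‖ζ‖` (`norm_fderiv_le_of_lip'`); the
derivative in `ζ` is bounded by `Apr`. -/
theorem fam_dec (hK : IsCompact K) (hJ : ∀ x, x ∉ K → J x = J0) (hF : ContDiff ℝ ∞ F)
    (h : ∀ c, Leaf J (fun ζ => F (ζ, c)) c) : ∃ C : ℝ, ∀ x : E, 1 ≤ ‖x.1‖ →
      ‖F x - x‖ ≤ C / ‖x.1‖ ∧ ‖fderiv ℝ F x - ContinuousLinearMap.id ℝ E‖ ≤ C / ‖x.1‖ := by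
  obtain ⟨ρ, C, a1, a2, hA⟩ := exists_apr hK
  have hA' := fun c => hA J hJ _ c (h c)
  set G : E → E := fun x => F x - x with hG
  have g1 : ContDiff ℝ ∞ G := hF.sub contDiff_id
  have g2 : ∀ x, HasFDerivAt G (fderiv ℝ F x - ContinuousLinearMap.id ℝ E) x := fun x =>
    (hF.differentiable (by simp) x).hasFDerivAt.sub (hasFDerivAt_id x)
  obtain ⟨L', hL'⟩ := (isCompact_closedBall (0 : E) ρ).exists_bound_of_continuousOn
    (g1.continuous_fderiv (by simp)).continuousOn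
  have L0 : 0 ≤ L' := (norm_nonneg _).trans (hL' 0 (mem_closedBall_self (by linarith)))
  have hL : ∀ x ∈ closedBall (0 : ℂ) ρ ×ˢ (univ : Set ℂ), ‖fderiv ℝ G x‖ ≤ L' := fun x hx => by
    rcases le_or_gt ‖x.2‖ ρ with h2 | h2
    · exact hL' x (mem_closedBall_zero_iff.2 (max_le (mem_closedBall_zero_iff.1 hx.1) h2))
    · have e : G =ᶠ[𝓝 x] fun _ => 0 :=
        (continuousAt_const.eventually_lt continuous_snd.norm.continuousAt h2).mono fun y hy =>
          sub_eq_zero.2 (congrFun ((hA' y.2).1 hy.le) y.1)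
      rw [e.fderiv_eq]
      simpa using L0
  have hd : ∀ c, DifferentiableOn ℂ (fun ζ => G (ζ, c)) {w | ρ < ‖w‖} := fun c w hw =>
    (((h c).hasDer (hJ _ (((hA' c).2 w).2 (le_of_lt hw)).1)).differentiableAt.sub
      (differentiableAt_id.prodMk (differentiableAt_const c))).differentiableWithinAt
  have hc : ∀ c, Continuous fun ζ => G (ζ, c) := fun c => g1.continuous.comp (by fun_prop)
  have lip : ∀ ζ : ℂ, ρ ≤ ‖ζ‖ → ∀ c c', ‖G (ζ, c') - G (ζ, c)‖ ≤ L' * ρ / ‖ζ‖ * ‖c' - c‖ :=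
    fun ζ hζ c c' => by
      have := ext_schwarz (M := L' * ‖c' - c‖) (by linarith) ((hd c').sub (hd c))
        ((hc c').sub (hc c)).continuousOn (fun w hw => by
          have := ((convex_closedBall (0 : ℂ) ρ).prod convex_univ).norm_image_sub_le_of_norm_fderiv_le
            (fun x _ => (g2 x).differentiableAt) hL (x := (w, c)) (y := (w, c'))
            ⟨mem_closedBall_zero_iff.2 hw.le, trivial⟩ ⟨mem_closedBall_zero_iff.2 hw.le, trivial⟩
          simpa using this) (sub_self (0 : E) ▸ (h c').lim.sub (h c).lim) hζ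
      exact this.trans_eq (by ring)
  have p0 : 0 ≤ ρ := by linarith
  refine ⟨C * ρ + L' * ρ, fun x hx => ?_⟩
  have x0 : 0 < ‖x.1‖ := by linarith
  have q1 : C ≤ C * ρ := le_mul_of_one_le_right a2 a1
  have q2 : 0 ≤ L' * ρ := mul_nonneg L0 p0
  rcases le_total ‖x.1‖ ρ with h1 | h1
  · constructor
    · refine ((hA' x.2).2 x.1).1.trans ((le_div_iff₀ x0).2 ?_)
      linarith [mul_le_mul_of_nonneg_left h1 a2]
    · rw [← (g2 x).fderiv]
      refine (hL x ⟨mem_closedBall_zero_iff.2 h1, trivial⟩).trans ((le_div_iff₀ x0).2 ?_)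
      linarith [mul_le_mul_of_nonneg_left h1 L0]
  · obtain ⟨-, b1, b2⟩ := ((hA' x.2).2 x.1).2 h1
    refine ⟨b1.trans (div_le_div_of_nonneg_right (by linarith) x0.le), ?_⟩
    have d1 := ((hF.differentiable (by simp) x).hasFDerivAt.comp x.1
      (hasFDerivAt_prodMk_left (𝕜 := ℝ) x.1 x.2)).fderiv
    have d2 := ((g2 x).comp x.2 (hasFDerivAt_prodMk_right (𝕜 := ℝ) x.1 x.2)).le_of_lip'
      (C := L' * ρ / ‖x.1‖) (by positivity) (.of_forall fun c' => lip x.1 h1 x.2 c')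
    have b3 : ‖(fderiv ℝ F x).comp (ContinuousLinearMap.inl ℝ ℂ ℂ) -
      ContinuousLinearMap.inl ℝ ℂ ℂ‖ ≤ C / ‖x.1‖ := d1 ▸ b2
    refine ContinuousLinearMap.opNorm_le_bound _ (by positivity) fun v => ?_
    have e1 := ContinuousLinearMap.le_of_opNorm_le _ b3 v.1
    have e2 := ContinuousLinearMap.le_of_opNorm_le _ d2 v.2
    have e3 : (fderiv ℝ F x - ContinuousLinearMap.id ℝ E) v =
        ((fderiv ℝ F x).comp (ContinuousLinearMap.inl ℝ ℂ ℂ) - ContinuousLinearMap.inl ℝ ℂ ℂ) v.1 +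
        (fderiv ℝ F x - ContinuousLinearMap.id ℝ E).comp (ContinuousLinearMap.inr ℝ ℂ ℂ) v.2 := by
      have : v = (v.1, 0) + (0, v.2) := by simp
      conv_lhs => rw [this, map_add]
      rfl
    rw [e3, add_div, add_mul]
    refine (norm_add_le _ _).trans (add_le_add (e1.trans ?_) (e2.trans ?_))
    · exact mul_le_mul (div_le_div_of_nonneg_right q1 x0.le) (norm_fst_le v) (norm_nonneg _)
        (by positivity)
    · exact mul_le_mul_of_nonneg_left (norm_snd_le v) (by positivity)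

end Pool.Agent.Lib.MP_7ed551_gt.Cy
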