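import Pool.Agent.Lib.MP_7ed551_gt.Cy.C.Apr
import Pool.Agent.Lib.MP_7ed551_gt.Cy.P.Cpt

/-! The gradient bound and compactness. -/

open scoped ContDiff Topology
open Set Filter Metric Real

noncomputable section

namespace Pool.Agent.Lib.MP_7ed551_gt.Cy

open Pool.Agent.Lib.MP_ccffa6_gt
open MeasureTheory

variable {Λ : Form1 E} {J : ℝ × E → E →L[ℝ] E} {K : Set E}

theorem Path.cpt_leaf (h : Path Λ J K) {x : ℕ → ℝ × ℂ} {x0 : ℝ × ℂ} {u : ℕ → ℂ → E}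
    (hx : Tendsto x atTop (𝓝 x0)) (hu : ∀ i, Leaf (fun y => J ((x i).1, y)) (u i) (x i).2) :
    ∃ (φ : ℕ → ℕ) (v : ℂ → E), StrictMono φ ∧ Leaf (fun y => J (x0.1, y)) v x0.2 ∧
      TendstoLocallyUniformly (fun i => u (φ i)) v atTop ∧
      TendstoLocallyUniformly (fun i => fderiv ℝ (u (φ i))) (fderiv ℝ v) atTop :=
  h.compact ((continuous_fst.tendsto x0).comp hx) ((continuous_snd.tendsto x0).comp hx) hu

/- Otherwise `px (u i) (ζ i) = 0` along a subsequence; `‖ζ i‖ ≤ max ρ C + 1` by `Apr`; pass to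
subsequences (`cpt_leaf`, the limit is `u0`), `TendstoLocallyUniformly.tendsto_comp`. -/
theorem Path.imm_open (h : Path Λ J K) {x : ℕ → ℝ × ℂ} {x0 : ℝ × ℂ} {u : ℕ → ℂ → E} {u0 : ℂ → E}
    (hx : Tendsto x atTop (𝓝 x0)) (hu : ∀ i, Leaf (fun y => J ((x i).1, y)) (u i) (x i).2)
    (hl : Tendsto u atTop (𝓝 u0)) (hi : ∀ ζ, px u0 ζ ≠ 0) :
    ∀ᶠ i in atTop, ∀ ζ, px (u i) ζ ≠ 0 := by
  by_contra hc
  obtain ⟨ψ, hψ, h1⟩ := extraction_of_frequently_atTop (not_eventually.1 hc)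
  simp only [not_forall, not_not] at h1
  choose ζ hζ using h1
  obtain ⟨ρ, C, a1, a2, hA⟩ := exists_apr h.cpt
  have hb : ∀ i, ζ i ∈ closedBall (0 : ℂ) (ρ + C) := fun i => by
    rw [mem_closedBall_zero_iff]
    by_contra hn
    push Not at hn
    have h2 := (((hA _ (fun y hy => h.farJ (_, y) hy) _ _ (hu (ψ i))).2 (ζ i)).2 (by linarith)).2.2
    have h3 := (fderiv ℝ (u (ψ i)) (ζ i) - ContinuousLinearMap.inl ℝ ℂ ℂ).le_of_opNorm_le h2 1
    have h4 : fderiv ℝ (u (ψ i)) (ζ i) 1 = 0 := hζ i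
    have h5 : C / ‖ζ i‖ < 1 := (div_lt_one (by linarith)).2 (by linarith)
    simp [h4] at h3
    linarith
  obtain ⟨ζ0, -, χ, hχ, h2⟩ := (isCompact_closedBall (0 : ℂ) (ρ + C)).tendsto_subseq hb
  have hs := (hψ.comp hχ).tendsto_atTop
  obtain ⟨φ, v, hφ, hv, h3, h4⟩ := h.cpt_leaf (hx.comp hs) (u := fun i => u (ψ (χ i)))
    fun i => hu _
  have e : v = u0 := funext fun z => tendsto_nhds_unique
    (h3.tendstoLocallyUniformlyOn.tendsto_at (mem_univ z))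
    ((tendsto_pi_nhds.1 hl z).comp (hs.comp hφ.tendsto_atTop))
  have h5 := h4.tendsto_comp (hv.sm.continuous_fderiv (by simp)).continuousAt
    (h2.comp hφ.tendsto_atTop)
  have h6 := ((ContinuousLinearMap.apply ℝ E (1 : ℂ)).continuous.tendsto _).comp h5
  have h7 : ∀ i, fderiv ℝ (u (ψ (χ (φ i)))) (ζ (χ (φ i))) 1 = 0 := fun i => hζ _
  refine hi ζ0 (e ▸ tendsto_nhds_unique h6 (tendsto_const_nhds.congr fun i => (h7 i).symm))

theorem Path.der (h : Path Λ J K) {x : ℕ → ℝ × ℂ} {x0 : ℝ × ℂ} {u : ℕ → ℂ → E}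
    (hx : Tendsto x atTop (𝓝 x0)) (hu : ∀ i, Leaf (fun y => J ((x i).1, y)) (u i) (x i).2)
    {ρ : ℝ} (hρ : 0 < ρ) (j : ℕ) : ∃ C : ℝ, ∀ i, ∀ z ∈ closedBall (0 : ℂ) 3,
      ‖iteratedFDeriv ℝ j (fun w => u i (ρ • w)) z‖ ≤ C := by
  obtain ⟨T, hT⟩ := (isBounded_range_of_tendsto x hx).exists_norm_le
  obtain ⟨C, hC⟩ := h.jets T T (3 * ρ) j
  refine ⟨C * ρ ^ j, fun i z hz => ?_⟩
  have a := hT _ (mem_range_self i)
  have b := hC _ _ _ ((norm_fst_le _).trans a) ((norm_snd_le _).trans a) (hu i) (ρ • z) (by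
    rw [norm_smul, Real.norm_of_nonneg hρ.le, mul_comm]
    exact mul_le_mul_of_nonneg_right (mem_closedBall_zero_iff.1 hz) hρ.le)
  have e := (ρ • ContinuousLinearMap.id ℝ ℂ).iteratedFDeriv_comp_right (hu i).sm z (i := j)
    (by exact_mod_cast le_top)
  have e' : iteratedFDeriv ℝ j (fun w => u i (ρ • w)) z = _ := e
  rw [e']
  refine (ContinuousMultilinearMap.norm_compContinuousLinearMap_le _ _).trans ?_
  have c : ‖ρ • ContinuousLinearMap.id ℝ ℂ‖ = ρ := by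
    rw [norm_smul, Real.norm_of_nonneg hρ.le, ContinuousLinearMap.norm_id, mul_one]
  simp only [c, Finset.prod_const, Finset.card_univ, Fintype.card_fin]
  exact mul_le_mul_of_nonneg_right b (by positivity)

end Pool.Agent.Lib.MP_7ed551_gt.Cy
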