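import Pool.Agent.Lib.MP_7ed551_gt.Cy.C.Lin0

/-! The linear equation in a complex frame. -/

open scoped ContDiff Topology
open Set Filter Metric Real

noncomputable section

namespace Pool.Agent.Lib.MP_7ed551_gt.Cy

open Pool.Agent.Lib.MP_ccffa6_gt
open scoped ComplexConjugate

/- `δ = cdet X η → a e` satisfies the hypotheses of `SimGStmt` (`cdet_le` on `closedBall 0 R`);
`h = δ exp (-s)` is entire and tends to `a e`, so it is constant.  If `e = 0`: `η = α • X` with
`α = (conj X.1 η.1 + conj X.2 η.2) / (|X.1|² + |X.2|²)` smooth, `db_smul` gives `dbar α = 0`,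
`α → 0`, Liouville. -/
theorem lin_alt (hS : SimGStmt) {A : ℂ → E →L[ℝ] E} {X η : ℂ → E} {R : ℝ} {a e : ℂ}
    (hA : Continuous A) (hR : ∀ z, R ≤ ‖z‖ → A z = 0) (hX : ContDiff ℝ ∞ X) (hη : ContDiff ℝ ∞ η)
    (h0 : ∀ z, X z ≠ 0) (e1 : ∀ z, db X z + A z (X z) = 0)
    (e2 : ∀ z, J0 (db X z) + A z (J0 (X z)) = 0) (e3 : ∀ z, db η z + A z (η z) = 0) (ha : a ≠ 0)
    (lX : Tendsto X (cocompact ℂ) (𝓝 (a, 0))) (lη : Tendsto η (cocompact ℂ) (𝓝 (0, e))) :
    (e = 0 → ∀ z, η z = 0) ∧ (e ≠ 0 → ∀ z (α : ℂ), η z ≠ α • X z) := by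
  have dX := hX.differentiable (by simp)
  have dη := hη.differentiable (by simp)
  have hδ : ContDiff ℝ ∞ fun z => cdet (X z) (η z) :=
    (hX.fst.mul hη.snd).sub (hX.snd.mul hη.fst)
  have b1 : ∀ z, ‖dbar (fun z => cdet (X z) (η z)) z‖ ≤ 2 * ‖A z‖ * ‖cdet (X z) (η z)‖ := fun z => by
    have h1 := cdet_le (y := η z) (h0 z) (e1 z) (e2 z)
    have h2 : cdet (db X z) (η z) - cdet (X z) (A z (η z)) =
        2 * dbar (fun z => cdet (X z) (η z)) z := by
      rw [dbar_cdet (dX z) (dη z), eq_neg_of_add_eq_zero_left (e3 z)]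
      simp [cdet]
      ring
    have h3 : ‖db X z‖ / ‖X z‖ ≤ ‖A z‖ := by
      rw [div_le_iff₀ (norm_pos_iff.2 (h0 z)), eq_neg_of_add_eq_zero_left (e1 z), norm_neg]
      exact (A z).le_opNorm _
    rw [h2, norm_mul, Complex.norm_two] at h1
    nlinarith [norm_nonneg (cdet (X z) (η z))]
  obtain ⟨M, hM⟩ := (isCompact_closedBall (0 : ℂ) R).exists_bound_of_continuousOn hA.continuousOn
  obtain ⟨s, h, -, s2, s3, s4⟩ := hS _ (2 * max M 0) R hδ (fun z => (b1 z).trans (by
      rcases le_total ‖z‖ R with h | h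
      · have := (hM z (mem_closedBall_zero_iff.2 h)).trans (le_max_left M 0)
        gcongr
      · rw [hR z h, norm_zero]
        have := le_max_right M 0
        gcongr))
    fun z hz => norm_le_zero_iff.1 (by simpa [hR z hz] using b1 z)
  have l1 : Tendsto (fun z => cdet (X z) (η z)) (cocompact ℂ) (𝓝 (a * e)) := by
    simpa [cdet] using (lX.fst_nhds.mul lη.snd_nhds).sub (lX.snd_nhds.mul lη.fst_nhds)
  have l2 : Tendsto h (cocompact ℂ) (𝓝 (a * e)) := by
    have := l1.mul s2.neg.cexp
    simp only [neg_zero, Complex.exp_zero, mul_one] at this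
    refine this.congr fun z => ?_
    rw [s4, mul_assoc, ← Complex.exp_add, add_neg_cancel, Complex.exp_zero, mul_one]
  have e4 : ∀ z, cdet (X z) (η z) = a * e * Complex.exp (s z) := fun z => by
    rw [s4, s3.apply_eq_of_tendsto_cocompact z l2]
  refine ⟨fun he => ?_, fun he z α h1 => ?_⟩
  · subst he
    have q0 : ∀ z, conj (X z).1 * (X z).1 + conj (X z).2 * (X z).2 ≠ 0 := fun z => by
      obtain ⟨q, rfl, h⟩ := lin0_q (h0 z)
      exact norm_pos_iff.1 (lt_of_lt_of_le (pow_pos (norm_pos_iff.2 (h0 z)) 2) h)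
    set α : ℂ → ℂ := fun z => (conj (X z).1 * (η z).1 + conj (X z).2 * (η z).2) /
      (conj (X z).1 * (X z).1 + conj (X z).2 * (X z).2) with hα
    have e5 : η = fun z => α z • X z := funext fun z => by
      have := lin0_dec rfl (q0 z) (η z)
      rwa [e4, mul_zero, zero_mul, zero_div, zero_smul, add_zero] at this
    have c1 : Differentiable ℝ fun z => conj (X z).1 := Complex.conjCLE.differentiable.comp dX.fst
    have c2 : Differentiable ℝ fun z => conj (X z).2 := Complex.conjCLE.differentiable.comp dX.snd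
    have dα : Differentiable ℝ α := by
      simp only [hα, div_eq_mul_inv]
      exact ((c1.mul dη.fst).add (c2.mul dη.snd)).mul (((c1.mul dX.fst).add (c2.mul dX.snd)).inv q0)
    have hol : Differentiable ℂ α := fun z => by
      have h1 := e3 z
      rw [e5, db_smul (dα z) (dX z), lin0_A (e1 z) (e2 z), add_neg_cancel_right] at h1
      have h2 := (smul_eq_zero.1 h1).resolve_right (h0 z)
      refine (differentiableAt_of_cr (dα z) ?_).differentiableAt
      rw [dbar] at h2
      rw [smul_eq_mul]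
      linear_combination (-Complex.I) * h2 + py α z * Complex.I_mul_I
    have k1 := (Complex.continuous_conj.tendsto _).comp lX.fst_nhds
    have k2 := (Complex.continuous_conj.tendsto _).comp lX.snd_nhds
    have l3 : Tendsto α (cocompact ℂ) (𝓝 0) := by
      have := ((k1.mul lη.fst_nhds).add (k2.mul lη.snd_nhds)).div
        ((k1.mul lX.fst_nhds).add (k2.mul lX.snd_nhds)) (by simpa using ha)
      simp only [mul_zero, add_zero, zero_div] at this
      exact this
    intro z
    rw [e5]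
    simp [hol.apply_eq_of_tendsto_cocompact z l3]
  · refine mul_ne_zero (mul_ne_zero ha he) (Complex.exp_ne_zero (s z)) ?_
    rw [← e4, h1]
    simp [cdet]
    ring

end Pool.Agent.Lib.MP_7ed551_gt.Cy
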