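import Pool.Agent.Lib.MP_7ed551_gt.Cy.C.Ext

/-! The linear equation in a complex frame. -/

open scoped ContDiff Topology
open Set Filter Metric Real

noncomputable section

namespace Pool.Agent.Lib.MP_7ed551_gt.Cy

open Pool.Agent.Lib.MP_ccffa6_gt
open scoped ComplexConjugate

/-- The complex determinant. -/
def cdet (a b : E) : ℂ := a.1 * b.2 - a.2 * b.1

theorem dbar_cdet {X η : ℂ → E} {z : ℂ} (hX : DifferentiableAt ℝ X z) (hη : DifferentiableAt ℝ η z) :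
    2 * dbar (fun w => cdet (X w) (η w)) z = cdet (db X z) (η z) + cdet (X z) (db η z) := by
  have h := ((hX.hasFDerivAt.fst.fun_mul hη.hasFDerivAt.snd).fun_sub
    (hX.hasFDerivAt.snd.fun_mul hη.hasFDerivAt.fst)).fderiv
  simp only [dbar, px, py, db, cdet, J0_apply, h]
  simp
  ring

theorem db_smul {α : ℂ → ℂ} {X : ℂ → E} {z : ℂ} (hα : DifferentiableAt ℝ α z)
    (hX : DifferentiableAt ℝ X z) :
    db (fun w => α w • X w) z = (2 * dbar α z) • X z + α z • db X z := by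
  have h := (hα.hasFDerivAt.fun_smul hX.hasFDerivAt).fderiv
  simp only [dbar, px, py, db, J0_apply, h]
  simp
  module

theorem lin0_le (a b : E) : ‖cdet a b‖ ≤ 2 * ‖a‖ * ‖b‖ := by
  refine (norm_sub_le _ _).trans ?_
  rw [norm_mul, norm_mul]
  linarith [mul_le_mul (norm_fst_le a) (norm_snd_le b) (norm_nonneg _) (norm_nonneg _),
    mul_le_mul (norm_snd_le a) (norm_fst_le b) (norm_nonneg _) (norm_nonneg _)]

theorem lin0_q {x : E} (_ : x ≠ 0) :
    ∃ q : ℂ, q = conj x.1 * x.1 + conj x.2 * x.2 ∧ ‖x‖ ^ 2 ≤ ‖q‖ := by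
  refine ⟨_, rfl, ?_⟩
  rw [Complex.conj_mul', Complex.conj_mul', ← Complex.ofReal_pow, ← Complex.ofReal_pow,
    ← Complex.ofReal_add, Complex.norm_of_nonneg (by positivity), Prod.norm_def]
  rcases le_total ‖x.1‖ ‖x.2‖ with h | h
  · rw [max_eq_right h]
    linarith [sq_nonneg ‖x.1‖]
  · rw [max_eq_left h]
    linarith [sq_nonneg ‖x.2‖]

theorem lin0_dec {x : E} {q : ℂ} (hq : q = conj x.1 * x.1 + conj x.2 * x.2) (h : q ≠ 0) (y : E) :
    y = ((conj x.1 * y.1 + conj x.2 * y.2) / q) • x +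
      (cdet x y / q) • ((-conj x.2, conj x.1) : E) := by
  refine Prod.ext ?_ ?_ <;> simp only [Prod.fst_add, Prod.snd_add, Prod.smul_fst, Prod.smul_snd,
    smul_eq_mul, cdet] <;> field_simp <;> rw [hq] <;> ring

theorem lin0_A {A : E →L[ℝ] E} {x d : E} (e1 : d + A x = 0) (e2 : J0 d + A (J0 x) = 0) (a : ℂ) :
    A (a • x) = -(a • d) := by
  have h : ∀ v : E, a • v = a.re • v + a.im • J0 v := fun v => by
    rw [J0_apply, ← smul_assoc, ← Complex.coe_smul, ← add_smul]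
    congr 1
    apply Complex.ext <;> simp
  rw [h, h, map_add, map_smul, map_smul, eq_neg_of_add_eq_zero_right e1,
    eq_neg_of_add_eq_zero_right e2]
  module

/- Write `y = a • x + b • n`, `n = (-conj x.2, conj x.1)`, `b = cdet x y / (|x.1|² + |x.2|²)`;
`A (a • x) = -a • d`, so the part of `a` cancels; `‖x‖ ^ 2 ≤ |x.1|² + |x.2|²`, `‖n‖ = ‖x‖`. -/
theorem cdet_le {A : E →L[ℝ] E} {x d y : E} (hx : x ≠ 0) (e1 : d + A x = 0)
    (e2 : J0 d + A (J0 x) = 0) :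
    ‖cdet d y - cdet x (A y)‖ ≤ 2 * (‖d‖ / ‖x‖ + ‖A‖) * ‖cdet x y‖ := by
  have x0 := norm_pos_iff.2 hx
  obtain ⟨q, hq, q0⟩ := lin0_q hx
  have q1 : 0 < ‖q‖ := lt_of_lt_of_le (by positivity) q0
  have q2 : q ≠ 0 := norm_pos_iff.1 q1
  set n : E := (-conj x.2, conj x.1) with hn
  set a := (conj x.1 * y.1 + conj x.2 * y.2) / q with ha
  set b := cdet x y / q with hb
  have e : y = a • x + b • n := lin0_dec hq q2 y
  have e3 : cdet d y - cdet x (A y) = b * cdet d n - cdet x (A (b • n)) := by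
    have : A y = -(a • d) + A (b • n) := by rw [← lin0_A e1 e2, ← map_add, ← e]
    rw [this]
    conv_lhs => rw [e]
    simp [cdet]
    ring
  have n1 : ‖n‖ = ‖x‖ := by simp [hn, Prod.norm_def, max_comm]
  have b1 : ‖b‖ * ‖x‖ ^ 2 ≤ ‖cdet x y‖ := by
    rw [hb, norm_div, div_mul_eq_mul_div, div_le_iff₀ q1]
    exact mul_le_mul_of_nonneg_left q0 (norm_nonneg _)
  have c1 := lin0_le d n
  have c2 := lin0_le x (A (b • n))
  have c3 := A.le_opNorm (b • n)
  rw [norm_smul, n1] at c3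
  rw [n1] at c1
  rw [e3]
  refine (norm_sub_le _ _).trans (le_trans ?_ (mul_le_mul_of_nonneg_left b1 (by positivity)))
  rw [norm_mul]
  have c4 := mul_le_mul_of_nonneg_left c1 (norm_nonneg b)
  have c5 := mul_le_mul_of_nonneg_left c3 (by positivity : 0 ≤ 2 * ‖x‖)
  have c6 : 2 * (‖d‖ / ‖x‖ + ‖A‖) * (‖b‖ * ‖x‖ ^ 2) =
      ‖b‖ * (2 * ‖d‖ * ‖x‖) + 2 * ‖x‖ * (‖A‖ * (‖b‖ * ‖x‖)) := by
    field_simp
  linarith

end Pool.Agent.Lib.MP_7ed551_gt.Cy
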