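import Pool.Agent.Lib.MP_7ed551_gt.Cy.C.Loc0

/-! The local family of leaves. -/

open scoped ContDiff Topology
open Set Filter Metric Real

noncomputable section

namespace Pool.Agent.Lib.MP_7ed551_gt.Cy

open Pool.Agent.Lib.MP_ccffa6_gt
open Pool.Agent.Lib.MP_ccffa6_gt.WA (fn)

variable {Λ : Form1 E} {J : ℝ × E → E →L[ℝ] E} {K : Set E}

theorem loc_px {u : ℂ → E} (hu : ContDiff ℝ ∞ u) (r : ℝ) (z : ℂ) :
    px (fun w => u (r • w)) z = r • px u (r • z) := by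
  have h := (hu.differentiable (by simp) (r • z)).hasFDerivAt.comp z
    ((hasFDerivAt_id z).const_smul r)
  rw [px, show fderiv ℝ (fun w => u (r • w)) z = _ from h.fderiv, px, ← map_smul]
  rfl

theorem loc_cont {n : ℕ} {V : ℝ × ℂ → ℂ → E} {x : ℝ × ℂ}
    (h : ∀ ζ, ContDiffAt ℝ n (fun q : (ℝ × ℂ) × ℂ => V q.1 q.2) (x, ζ)) : ContinuousAt V x :=
  continuousAt_pi.2 fun ζ => (h ζ).continuousAt.comp (f := fun x => (x, ζ)) (by fun_prop)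

theorem Path.loc (hS : SimGStmt) (h : Path Λ J K) (n : ℕ) {x0 : ℝ × ℂ} {u0 : ℂ → E}
    (h0 : Im J x0 u0) : ∃ V : ℝ × ℂ → ℂ → E, V x0 = u0 ∧
      (∀ᶠ x in 𝓝 x0, Im J x (V x) ∧
        ∀ ζ, ContDiffAt ℝ n (fun q : (ℝ × ℂ) × ℂ => V q.1 q.2) (x, ζ)) ∧
      ∀ (x : ℕ → ℝ × ℂ) (u : ℕ → ℂ → E), Tendsto x atTop (𝓝 x0) → Tendsto u atTop (𝓝 u0) →
        (∀ i, Leaf (fun y => J ((x i).1, y)) (u i) (x i).2) → ∀ᶠ i in atTop, u i = V (x i) := by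
  obtain ⟨ρ, C, h1, -, hA⟩ := exists_apr h.cpt
  have hρ : 0 < ρ := one_pos.trans_le h1
  have e : ∀ ζ : ℂ, ρ • ρ⁻¹ • ζ = ζ := smul_inv_smul₀ hρ.ne'
  have ho : ∀ (x : ℝ × ℂ) u, Leaf (fun y => J (x.1, y)) u x.2 →
      SLeaf (1 * ρ) (fun y => J (x.1, y)) (fun z => u (ρ • z)) x.2 ∧
        ∀ z : ℂ, 1 ≤ ‖z‖ → u (ρ • z) ∉ K := fun x u hu =>
    ⟨(leaf_iff.1 hu).scale hρ, fun z hz => (((hA _ (fun y => h.farJ (x.1, y)) u _ hu).2 _).2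
      (by rw [norm_smul, Real.norm_of_nonneg hρ.le]; nlinarith)).1⟩
  obtain ⟨Φ, Ψ, hf⟩ := h.frm x0.1
  obtain ⟨Ev, T, hop⟩ := exists_op (k := n + 2) (by omega)
  obtain ⟨l0, o0⟩ := ho x0 u0 h0.1
  obtain ⟨U0, hU⟩ := exists_wcut (k := n + 2 + 1) l0.sm
  obtain ⟨P0, hP⟩ := exists_wcut (k := n + 2 + 1) (hf.smΦ.comp l0.sm)
  obtain ⟨Q0, hQ⟩ := exists_wcut (k := n + 2 + 1) (hf.smΨ.comp l0.sm)
  obtain ⟨c1, hc⟩ := exists_wcut (k := n + 2) contDiff_chi1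
  obtain ⟨V, e0, hV, hun⟩ := Dat.OK.loc hS
    (D := ⟨J, K, Φ, Ψ, x0.1, x0.2, 1 * ρ, fun z => u0 (ρ • z), Ev, T, U0, P0, Q0, c1⟩)
    ⟨by omega, h.smJ, h.sq, h.farJ, hf, hop, by simpa, l0, o0, hU, hP, hQ, hc⟩ fun z => by
      rw [loc_px h0.1.sm]
      exact smul_ne_zero hρ.ne' (h0.2 _)
  have e1 : (fun ζ : ℂ => V x0 (ρ⁻¹ • ζ)) = u0 := funext fun ζ =>
    (congrFun e0 _).trans (congrArg u0 (e ζ))
  have hV' : ∀ᶠ x in 𝓝 x0, Leaf (fun y => J (x.1, y)) (fun ζ : ℂ => V x (ρ⁻¹ • ζ)) x.2 ∧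
      ∀ ζ, ContDiffAt ℝ n (fun q : (ℝ × ℂ) × ℂ => V q.1 (ρ⁻¹ • q.2)) (x, ζ) := by
    refine hV.mono fun x hx => ⟨leaf_iff.2 ?_, fun ζ => ?_⟩
    · have := hx.1.scale (inv_pos.2 hρ)
      rwa [show (1 * ρ) * ρ⁻¹ = 1 by field_simp] at this
    · exact ((hx.2 _).of_le (by exact_mod_cast Nat.le_add_right n 2)).comp
        (f := fun q : (ℝ × ℂ) × ℂ => (q.1, ρ⁻¹ • q.2)) (x, ζ) (by fun_prop)
  refine ⟨fun x ζ => V x (ρ⁻¹ • ζ), e1, ?_, fun x u hx hu hl => ?_⟩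
  · have hi : ∀ᶠ x in 𝓝 x0, ∀ ζ, px (fun ζ : ℂ => V x (ρ⁻¹ • ζ)) ζ ≠ 0 := by
      by_contra hn
      obtain ⟨x, hx, h2⟩ := exists_seq_forall_of_frequently
        ((not_eventually.1 hn).and_eventually hV')
      obtain ⟨i, hi⟩ := (h.imm_open hx (fun i => (h2 i).2.1) ((e1 ▸ (loc_cont
        (V := fun x ζ => V x (ρ⁻¹ • ζ)) hV'.self_of_nhds.2).tendsto).comp hx) h0.2).exists
      exact (h2 i).1 hi
    filter_upwards [hV', hi] with x h2 h3 using ⟨⟨h2.1, h3⟩, h2.2⟩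
  · refine (hun x (fun i z => u i (ρ • z)) hx (tendsto_pi_nhds.2 fun z => tendsto_pi_nhds.1 hu _)
      (fun i => ho _ _ (hl i)) (h.der hx hl hρ)).mono fun i hi => funext fun ζ => ?_
    exact (congrArg (u i) (e ζ)).symm.trans (congrFun hi _)

theorem Path.locEx (hS : SimGStmt) (h : Path Λ J K) : LocEx (Im J) := by
  intro x0 u0 h0
  obtain ⟨V, h1, h2, -⟩ := h.loc hS 0 h0
  exact ⟨V, h1, h2.mono fun x hx => ⟨loc_cont hx.2, hx.1⟩⟩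

theorem Path.locUn (hS : SimGStmt) (h : Path Λ J K) : LocUn (Im J) := by
  intro x0 u0 h0 x u u' hx hu hu' hM
  obtain ⟨V, -, -, h3⟩ := h.loc hS 0 h0
  filter_upwards [h3 x u hx hu fun i => (hM i).1.1, h3 x u' hx hu' fun i => (hM i).2.1] with i a b
    using a.trans b.symm

theorem Path.fam_sm (hS : SimGStmt) (h : Path Λ J K) {t : ℝ} {W : ℂ → ℂ → E}
    (hW : Fml (Im J) t W) : ContDiff ℝ ∞ fun x : E => W x.2 x.1 := by
  refine contDiff_infty.2 fun n => contDiff_iff_contDiffAt.2 fun y => ?_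
  obtain ⟨V, -, h2, h3⟩ := h.loc hS n (hW.2 y.2)
  have h4 : ∀ᶠ c in 𝓝 y.2, W c = V (t, c) := eventually_iff_seq_eventually.2 fun c hc =>
    h3 (fun i => (t, c i)) _ (tendsto_const_nhds.prodMk_nhds hc) ((hW.1.tendsto _).comp hc)
      fun i => (hW.2 _).1
  refine ((h2.self_of_nhds.2 y.1).comp (f := fun x : E => ((t, x.2), x.1)) y
    (by fun_prop)).congr_of_eventuallyEq ?_
  exact ((continuous_snd.tendsto y).eventually h4).mono fun x hx => congrFun hx _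

end Pool.Agent.Lib.MP_7ed551_gt.Cy
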