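import Pool.Agent.Lib.MP_7ed551_gt.Cy.C.Nz0

/-! Zeros of the nonlinear equation are leaves and conversely. -/

open scoped ContDiff Topology
open Set Filter Metric Real

noncomputable section

namespace Pool.Agent.Lib.MP_7ed551_gt.Cy

open Pool.Agent.Lib.MP_ccffa6_gt
open Pool.Agent.Lib.MP_ccffa6_gt.WA (fn)

variable {k : ℕ} {D : Dat k}

/-- The operator `db` on the torus. -/
def dbW (η : WA (k + 1) E) : WA k E := WA.dx η + WA.lin J0 (WA.dy η)

/-- The parameter of a nearby leaf. -/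
def Dat.par (D : Dat k) (c : ℂ) (U : WA (k + 1) E) : WA k E :=
  wsm D.c1 (dbW (wap D.Q0 (U - D.U0 - WA.const ((0 : ℂ), c - D.c0))))

theorem nz_fn (η : WA (k + 1) E) (z : ℂ) : fn (dbW η) z = db (fn η) z := by
  rw [dbW, WA.fn_add, WA.fn_lin, WA.fn_dx, WA.fn_dy, db]

theorem Dat.OK.par_spec (h : D.OK) {x : ℝ × ℂ} {u : ℂ → E}
    (hu : SLeaf D.ρ (fun y => D.J (x.1, y)) u x.2) (ho : ∀ z, 1 ≤ ‖z‖ → u z ∉ D.K)
    {U : WA (k + 1) E} (hU : fn U = cut u) :
    D.up (x, D.par x.2 U) = u ∧ D.N (x, D.par x.2 U) = 0 := by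
  have hk := h.two
  obtain ⟨η, hη⟩ : ∃ η : ℂ → E, η = fun z => D.Ψ (D.u0 z) (u z - D.u0 z - (0, x.2 - D.c0)) :=
    ⟨_, rfl⟩
  have du := hu.sm.differentiable (by simp)
  have d0 := h.leaf.sm.differentiable (by simp)
  have h1 : ∀ z, 1 ≤ ‖z‖ → db η z = 0 := fun z hz => by
    have a1 : η =ᶠ[𝓝 z] fun w => u w - D.u0 w - (0, x.2 - D.c0) :=
      (h.ev_out hz).mono fun w hw => by simp only [hη, (hw _).2]
    rw [db_congr a1, db_sub ((du z).fun_sub (d0 z)) (differentiableAt_const _),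
      db_sub (du z) (d0 z), db_of_hol (differentiableAt_const _),
      db_of_jhol h.leaf.hol (h.frm.farJ _ (h.out z hz)),
      db_of_jhol hu.hol (h.farJ (x.1, u z) (ho z hz)), sub_zero, sub_zero]
  have h2 : ∀ z, red z = z → fn (D.par x.2 U) z = chi1 z • db η z := fun z hz => by
    rw [Dat.par, fn_wsm, h.hc, cut_chi1 hz, nz_fn]
    rcases le_or_gt (3 / 2) ‖z‖ with a1 | a1
    · rw [chi1_zero a1, zero_smul, zero_smul]
    refine congrArg _ (db_congr ?_)
    filter_upwards [(isOpen_lt continuous_norm continuous_const).mem_nhds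
      (show ‖z‖ < 2 by linarith)] with w hw
    have a2 : ‖w‖ ≤ 2 := le_of_lt hw
    rw [fn_wap, WA.fn_sub, WA.fn_sub, WA.fn_const, h.hQ, hU, h.hU, cut_eq _ a2, cut_eq _ a2,
      cut_eq _ a2, hη]
  have h3 : ∀ z, η z = D.Ev z (D.par x.2 U) := by
    refine h.op.uniq (by omega) ?_ ?_ fun z => ?_
    · rw [hη]
      exact ((h.frm.smΨ.comp h.leaf.sm).differentiable (by simp)).clm_apply
        ((du.fun_sub d0).sub_const _)
    · have a1 := hu.lim.sub h.leaf.lim
      rw [sub_zero] at a1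
      refine a1.congr' (((tendsto_norm_cocompact_atTop (E := ℂ)).eventually_ge_atTop 1).mono
        fun z hz => ?_)
      simp only [hη, (h.frm.far _ (h.out z hz) _).2]
      ext <;> simp
      ring
    · rcases le_or_gt (3 / 2) ‖z‖ with a1 | a1
      · rw [chi1_zero a1, zero_smul, h1 z (by linarith)]
      rw [h2 z (red_eq (by linarith))]
      rcases le_total ‖z‖ 1 with a2 | a2
      · rw [chi1_one a2, one_smul, one_smul]
      · rw [h1 z a2, smul_zero, smul_zero]
  have h4 : D.up (x, D.par x.2 U) = u := funext fun z => by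
    simp only [Dat.up, ← h3, hη, h.frm.right]
    abel
  refine ⟨h4, wa_ext fun z hz => ?_⟩
  rw [h.N_pt _ hz, h4, (hu.hol z trivial).2, neg_add_cancel, map_zero, smul_zero, add_zero,
    WA.fn_zero, h2 z hz]
  rcases le_total ‖z‖ 1 with a2 | a2
  · rw [chi1_one a2, one_pow, sub_self, zero_smul]
  · rw [h1 z a2, smul_zero, smul_zero]

theorem Dat.par_lim (D : Dat k) {c : ℕ → ℂ} {U : ℕ → WA (k + 1) E} (hc : Tendsto c atTop (𝓝 D.c0))
    (hU : Tendsto U atTop (𝓝 D.U0)) : Tendsto (fun i => D.par (c i) (U i)) atTop (𝓝 0) := by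
  have h1 : Continuous fun q : ℂ × WA (k + 1) E => D.par q.1 q.2 := by
    unfold Dat.par dbW
    fun_prop
  have h2 : D.par D.c0 D.U0 = 0 := by simp [Dat.par, dbW, ← Prod.zero_eq_mk]
  have h3 := (h1.tendsto' (D.c0, D.U0) 0 h2).comp (hc.prodMk_nhds hU)
  simpa only [Function.comp_def] using h3

end Pool.Agent.Lib.MP_7ed551_gt.Cy
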