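import Pool.Agent.Lib.MP_7ed551_gt.Cy.C.Nd
import Pool.Agent.Lib.MP_7ed551_gt.Cy.C.Nz
import Pool.Agent.Lib.MP_7ed551_gt.Cy.C.Grad

/-! The local family of leaves. -/

open scoped ContDiff Topology
open Set Filter Metric Real

noncomputable section

namespace Pool.Agent.Lib.MP_7ed551_gt.Cy

open Pool.Agent.Lib.MP_ccffa6_gt
open Pool.Agent.Lib.MP_ccffa6_gt.WA (fn)

theorem Dat.OK.loc (hS : SimGStmt) {k : ℕ} {D : Dat k} (h : D.OK) (hi : ∀ z, px D.u0 z ≠ 0) :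
    ∃ V : ℝ × ℂ → ℂ → E, V (D.t0, D.c0) = D.u0 ∧
      (∀ᶠ x in 𝓝 (D.t0, D.c0), SLeaf D.ρ (fun y => D.J (x.1, y)) (V x) x.2 ∧
        ∀ z, ContDiffAt ℝ k (fun q : (ℝ × ℂ) × ℂ => V q.1 q.2) (x, z)) ∧
      ∀ (x : ℕ → ℝ × ℂ) (u : ℕ → ℂ → E), Tendsto x atTop (𝓝 (D.t0, D.c0)) →
        Tendsto u atTop (𝓝 D.u0) →
        (∀ i, SLeaf D.ρ (fun y => D.J ((x i).1, y)) (u i) (x i).2 ∧ ∀ z, 1 ≤ ‖z‖ → u i z ∉ D.K) →
        (∀ j : ℕ, ∃ C : ℝ, ∀ i, ∀ z ∈ closedBall (0 : ℂ) 3, ‖iteratedFDeriv ℝ j (u i) z‖ ≤ C) →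
        ∀ᶠ i in atTop, u i = V (x i) := by
  obtain ⟨S, s1, s2, s3⟩ := h.N_der
  obtain ⟨γ, g0, g1, g2⟩ := ift (x0 := (D.t0, D.c0)) h.N_sm h.N_zero s1 s2 fun g hg =>
    h.N_inj hS hi fun z hz => by rw [← s3 g z hz, ← WA.fn_add, hg, WA.fn_zero]
  have ht : Tendsto (fun x => (x, γ x)) (𝓝 (D.t0, D.c0)) (𝓝 D.p0) :=
    tendsto_id.prodMk_nhds (g0 ▸ g1.continuousAt.tendsto)
  refine ⟨fun x => D.up (x, γ x), by simp only [g0]; exact D.up_zero, ?_, fun x u hx hu h1 h2 => ?_⟩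
  · filter_upwards [ht.eventually h.up_out, ht.eventually g2,
      (g1.of_le (m := k) (by exact_mod_cast le_top)).eventually (by simp)] with x a1 a2 a3
    refine ⟨h.N_leaf a1 (a2.2 rfl), fun z => ?_⟩
    exact h.up_sm.contDiffAt.comp (f := fun q : (ℝ × ℂ) × ℂ => ((q.1, γ q.1), q.2)) (x, z)
      ((contDiffAt_fst.prodMk (a3.comp (x, z) contDiffAt_fst)).prodMk contDiffAt_snd)
  · choose U hU using fun i => exists_wcut (k := k + 1) (h1 i).1.sm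
    have a1 := D.par_lim ((continuous_snd.tendsto _).comp hx)
      (tendsto_cut (fun i => (h1 i).1.sm) h2 hu hU h.hU)
    filter_upwards [(hx.prodMk_nhds a1).eventually g2] with i a2
    obtain ⟨a3, a4⟩ := h.par_spec (h1 i).1 (h1 i).2 (hU i)
    rw [a2.1 a4]
    exact a3.symm

end Pool.Agent.Lib.MP_7ed551_gt.Cy
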