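import Pool.Agent.Lib.MP_7ed551_gt.Cy.C.Def

/-! The foliation. -/

open scoped ContDiff Topology
open Set Filter Metric Real

noncomputable section

namespace Pool.Agent.Lib.MP_7ed551_gt.Cy

open Pool.Agent.Lib.MP_ccffa6_gt

variable {J : ℝ × E → E →L[ℝ] E} {K : Set E}

theorem pth_w1 (a b : ℂ) : |w1 a b| ≤ ‖a‖ * ‖b‖ := by
  have e : w1 a b = ((starRingEnd ℂ) a * b).im := by
    simp [w1]
    ring
  rw [e]
  exact (Complex.abs_im_le_norm _).trans (by rw [norm_mul, Complex.norm_conj])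

theorem pth_om (v w : E) : |om v w| ≤ 2 * ‖v‖ * ‖w‖ := by
  have a := (pth_w1 v.1 w.1).trans
    (mul_le_mul (norm_fst_le v) (norm_fst_le w) (norm_nonneg _) (norm_nonneg _))
  have b := (pth_w1 v.2 w.2).trans
    (mul_le_mul (norm_snd_le v) (norm_snd_le w) (norm_nonneg _) (norm_nonneg _))
  exact (abs_add_le _ _).trans (by linarith)

theorem pth_J0 (v : E) : ‖v‖ ^ 2 ≤ om v (J0 v) := by
  have e : om v (J0 v) = ‖v.1‖ ^ 2 + ‖v.2‖ ^ 2 := by
    simp [om, w1, J0_apply, Complex.sq_norm, Complex.normSq_apply]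
  rw [e, Prod.norm_def]
  rcases le_total ‖v.1‖ ‖v.2‖ with h | h
  · rw [max_eq_right h]
    linarith [sq_nonneg ‖v.1‖]
  · rw [max_eq_left h]
    linarith [sq_nonneg ‖v.2‖]

theorem pth_tame {A : E →L[ℝ] E} (h : ‖A - J0‖ < 1 / 2) {v : E} (hv : v ≠ 0) :
    0 < om v (A v) := by
  have e : om v (A v) = om v (J0 v) + om v ((A - J0) v) := by
    simp only [← omL_apply, ← map_add, ContinuousLinearMap.sub_apply, add_sub_cancel]
  have a := pth_J0 v
  have b := (abs_le.1 (pth_om v ((A - J0) v))).1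
  have c := (A - J0).le_opNorm v
  have d := norm_pos_iff.2 hv
  have f := mul_lt_mul_of_pos_right h (mul_pos d d)
  rw [e]
  nlinarith

theorem exists_pth (hJ : ContDiff ℝ ∞ J) (hs : ∀ p v, J p (J p v) = -v) (hK : IsCompact K)
    (hf : ∀ p : ℝ × E, p.2 ∉ K → J p = J0) (h0 : ∀ x, J (0, x) = J0) :
    ∃ θ : ℝ → ℝ, (∀ᶠ t in 𝓝 (0 : ℝ), θ t = t) ∧ Path lam0 (fun p => J (θ p.1, p.2)) K := by
  have h1 : ∀ᶠ s in 𝓝 (0 : ℝ), ∀ x ∈ K, ‖J (s, x) - J0‖ < 1 / 2 :=
    hK.eventually_forall_of_forall_eventually fun x _ =>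
      (hJ.continuous.sub continuous_const).norm.continuousAt.eventually_lt continuousAt_const
        (by simp [h0])
  obtain ⟨ε, hε, h2⟩ := Metric.eventually_nhds_iff.1 h1
  let b : ContDiffBump (0 : ℝ) := ⟨ε / 2, ε, by positivity, by linarith⟩
  have hb : ContDiff ℝ ∞ fun t => b t * t := b.contDiff.mul contDiff_id
  have h3 : ∀ t, dist (b t * t) 0 < ε := fun t => by
    rcases lt_or_ge (dist t 0) ε with h | h
    · rw [dist_zero_right] at h ⊢
      rw [norm_mul, Real.norm_of_nonneg b.nonneg]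
      exact (mul_le_of_le_one_left (norm_nonneg _) b.le_one).trans_lt h
    · rw [b.zero_of_le_dist h, zero_mul, dist_self]
      exact hε
  refine ⟨fun t => b t * t, b.eventuallyEq_one.mono fun t ht => by simp [ht],
    contDiff_lam0, hJ.comp ((hb.comp contDiff_fst).prodMk contDiff_snd), fun p => hs _,
    fun p v hv => ?_, hK, fun _ _ => rfl, fun p hp => hf _ hp, fun x => by simp [h0]⟩
  rw [dF_lam0]
  refine pth_tame ?_ hv
  by_cases hp : p.2 ∈ K
  · exact h2 (h3 _) _ hp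
  · rw [hf (b p.1 * p.1, p.2) hp]
    simp

end Pool.Agent.Lib.MP_7ed551_gt.Cy
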