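import Pool.Agent.Lib.MP_7ed551_gt.Cy.C.Loc
import Pool.Agent.Lib.MP_7ed551_gt.Cy.C.Fam
import Pool.Agent.Lib.MP_7ed551_gt.Cy.C.Cnt
import Pool.Agent.Lib.MP_7ed551_gt.Cy.C.Pth

/-! The foliation. -/

open scoped ContDiff Topology
open Set Filter Metric Real

noncomputable section

namespace Pool.Agent.Lib.MP_7ed551_gt.Cy

open Pool.Agent.Lib.MP_ccffa6_gt

variable {Λ : Form1 E} {J : ℝ × E → E →L[ℝ] E} {K : Set E}

theorem Path.fol (hS : SimGStmt) (h : Path Λ J K) {t : ℝ} {W : ℂ → ℂ → E} (hW : Fml (Im J) t W) :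
    ∃ P, Fol (fun x => J (t, x)) (fun x => W x.2 x.1) P := by
  obtain ⟨Φ, Ψ, hf⟩ := h.frm t
  exact hf.fam_fol hS (h.fam_sm hS hW) hW.2

theorem Path.fam_zero (h : Path Λ J K) : Fml (Im J) 0 fun c ζ => (ζ, c) :=
  ⟨by fun_prop, fun _ => leaf_triv fun _ => h.zero _⟩

theorem Path.isOpen (hS : SimGStmt) (h : Path Λ J K) : IsOpen {t | ∃ W, Fml (Im J) t W} := by
  obtain ⟨R, -, h1⟩ := exists_rad h.cpt
  refine fam_open (h.locEx hS) (h.locUn hS) h.fam_zero.1 (R := R + 1) fun t c hc u =>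
    ⟨fun hu => funext (hu.1.triv (fun x hx => h.farJ (t, x) (h1 x hx)) (R := R) (by linarith)), ?_⟩
  rintro rfl
  exact leaf_triv fun ζ => h.farJ (t, (ζ, c))
    (h1 _ (((lt_add_one R).trans_le hc).trans_le (norm_snd_le ((ζ, c) : E))))

theorem Path.isClosed (hS : SimGStmt) (hL : LimStmt) (h : Path Λ J K) :
    IsClosed {t | ∃ W, Fml (Im J) t W} := by
  refine fam_closed (h.locEx hS) (h.locUn hS) fun t t0 W ht hW c => ?_
  obtain ⟨φ, v, h1, h2, h3, h4⟩ := h.cpt_leaf (x := fun n => (t n, c)) (x0 := (t0, c))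
    (u := fun n => W n c) (ht.prodMk_nhds tendsto_const_nhds) fun n => ((hW n).2 c).1
  refine ⟨φ, v, h1, ⟨h2, hL J (fun n => t (φ n)) t0 _ v c h.smJ h.sq ⟨K, h.cpt, h.farJ⟩
    (ht.comp h1.tendsto_atTop) (fun n => ?_) h2 h3 h4⟩,
    tendsto_pi_nhds.2 fun ζ => h3.tendstoLocallyUniformlyOn.tendsto_at (mem_univ ζ)⟩
  obtain ⟨P, hP⟩ := h.fol hS (hW (φ n))
  have a := (hW (φ n)).2 c
  refine ⟨a.1.sm, a.1.hol, fun ζ ζ' e => ?_, a.2⟩
  exact congrArg Prod.fst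
    ((hP.left (ζ, c)).symm.trans ((congrArg P e).trans (hP.left (ζ', c))))

theorem fol_of (hS : SimGStmt) (hL : LimStmt) : FolStmt := by
  intro Λ J K h
  obtain ⟨W, hW⟩ : (1 : ℝ) ∈ {t | ∃ W, Fml (Im J) t W} := by
    rw [IsClopen.eq_univ ⟨h.isClosed hS hL, h.isOpen hS⟩ ⟨0, _, h.fam_zero⟩]
    trivial
  exact ⟨_, h.fol hS hW⟩

theorem small_of (hS : SimGStmt) : SmallStmt := by
  intro J K hJ hs hK hf h0
  obtain ⟨θ, h1, h⟩ := exists_pth hJ hs hK hf h0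
  filter_upwards [h1, (h.isOpen hS).mem_nhds ⟨_, h.fam_zero⟩] with t e ⟨W, hW⟩
  have := h.fol hS hW
  simp only [e] at this
  exact ⟨_, this⟩

end Pool.Agent.Lib.MP_7ed551_gt.Cy
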