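import Pool.Agent.Lib.MP_7ed551_gt.Cy.C.Nd0

/-! The derivative of the nonlinear equation. -/

open scoped ContDiff Topology
open Set Filter Metric Real

noncomputable section

namespace Pool.Agent.Lib.MP_7ed551_gt.Cy

open Pool.Agent.Lib.MP_ccffa6_gt
open Pool.Agent.Lib.MP_ccffa6_gt.WA (fn)

variable {k : ℕ} {D : Dat k}

/- `η = Ev · g` solves `db η + A η = 0`, so `ξ = Φ η` solves `Lpt ξ = 0` (`Frm.conj`), is smooth
(`lpt_reg`) and vanishes (`Frm.delta` with `e = 0`, `SLeaf.px_lim`). -/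
theorem Dat.OK.N_inj (hS : SimGStmt) (h : D.OK) (hi : ∀ z, px D.u0 z ≠ 0) {g : WA k E}
    (hg : ∀ z, red z = z → fn g z + chi1 z • D.A z (D.Ev z g) = 0) : g = 0 := by
  have k2 : (2 : WithTop ℕ∞) ≤ k := by exact_mod_cast h.two
  have hη : ContDiff ℝ 2 fun z => D.Ev z g := (h.op.contDiff g).of_le k2
  have hA : ∀ z, 1 ≤ ‖z‖ → D.A z = 0 := fun z hz => h.frm.A_far h.leaf.sm (h.out z hz)
  have e1 : ∀ z, db (fun z => D.Ev z g) z + D.A z (D.Ev z g) = 0 := fun z => by
    rw [h.op.sol]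
    rcases le_total ‖z‖ 1 with h1 | h1
    · have := hg z (red_eq (by linarith))
      rwa [chi1_one h1, one_smul] at this ⊢
    · rcases le_total ‖z‖ 3 with h2 | h2
      · have := hg z (red_eq h2)
        simp only [hA z h1, ContinuousLinearMap.zero_apply, smul_zero, add_zero] at this ⊢
        rw [this, smul_zero]
      · simp [hA z h1, chi1_zero (z := z) (by linarith)]
  have hL : ∀ z, Lpt (fun y => D.J (D.t0, y)) D.u0 (fun w => D.Φ (D.u0 w) (D.Ev w g)) z = 0 :=
    fun z => by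
      rw [← h.frm.right (D.u0 z) (Lpt _ _ _ z),
        h.frm.conj h.leaf.sm (hη.differentiable (by simp) z)]
      exact (congrArg _ (e1 z)).trans (map_zero _)
  have hξ := lpt_reg h.frm.smJ h.frm.sq h.leaf.sm
    (((h.frm.smΦ.comp h.leaf.sm).of_le (WithTop.coe_le_coe.2 le_top)).clm_apply hη) hL
  have tn : Tendsto (norm : ℂ → ℝ) (cocompact ℂ) atTop := tendsto_norm_cocompact_atTop
  have e2 := (h.frm.delta hS h.leaf.sm h.leaf.hol h.out hi (Complex.ofReal_ne_zero.2 h.pos.ne')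
    (h.leaf.px_lim fun z hz => h.frm.farJ _ (h.out z hz)) hξ hL (e := 0)
    ((h.op.lim' g).congr' ((tn.eventually_ge_atTop 1).mono fun z hz =>
      (h.frm.far _ (h.out z hz) _).1.symm))).1 rfl
  refine wa_ext fun z hz => ?_
  have e3 : D.Ev z g = 0 :=
    (h.frm.left (D.u0 z) _).symm.trans ((congrArg _ (e2 z)).trans (map_zero _))
  have := hg z hz
  rw [e3, map_zero, smul_zero, add_zero] at this
  exact this

end Pool.Agent.Lib.MP_7ed551_gt.Cy
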