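import Pool.Agent.Lib.MP_7ed551_gt.Cy.C.Nl
import Pool.Agent.Lib.MP_7ed551_gt.Cy.C.Del
import Pool.Agent.Lib.MP_7ed551_gt.Cy.C.Est

/-! The derivative of the nonlinear equation. -/

open scoped ContDiff Topology
open Set Filter Metric Real

noncomputable section

namespace Pool.Agent.Lib.MP_7ed551_gt.Cy

open Pool.Agent.Lib.MP_ccffa6_gt
open Pool.Agent.Lib.MP_ccffa6_gt.WA (fn)

variable {k : ℕ} {D : Dat k}

theorem nd0_der (h : D.OK) (g : WA k E) : fderiv ℝ D.N D.p0 (0, g) = g - wsm D.c1 (wsm D.c1 g) +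
    wsm D.c1 (wap (WA.incl D.Q0) (fderiv ℝ (cr D.J) (D.t0, D.ut D.p0) (0, wap D.P0 (D.T g)))) := by
  have h1 := ((contDiff_cr (k := k) (by have := h.two; omega) h.smJ).differentiable (by simp)
    (D.t0, D.ut D.p0)).hasFDerivAt
  have h2 : HasDerivAt (fun s : ℝ => (D.t0, D.ut (D.p0 + s • (0, g)))) (0, wap D.P0 (D.T g)) 0 := by
    have h3 := ((hasDerivAt_id (0 : ℝ)).smul_const (wap D.P0 (D.T g))).const_add (D.ut D.p0)
    rw [one_smul] at h3
    refine (hasDerivAt_const _ _).prodMk (h3.congr_of_eventuallyEq (.of_forall fun s => ?_))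
    simp [Dat.ut, Dat.p0]
  have h4 := (((wsm D.c1).comp (wap (WA.incl D.Q0))).hasFDerivAt.comp _ h1).comp_hasDerivAt_of_eq
    (0 : ℝ) h2 (by simp)
  have h5 := (((hasDerivAt_id (0 : ℝ)).smul_const (g - wsm D.c1 (wsm D.c1 g))).add h4)
  rw [one_smul] at h5
  have h6 := ((h.N_sm.differentiable (by simp)) D.p0).hasFDerivAt.comp_hasDerivAt_of_eq (0 : ℝ)
    (((hasDerivAt_id (0 : ℝ)).smul_const ((0, g) : (ℝ × ℂ) × WA k E)).const_add D.p0) (by simp)
  rw [one_smul] at h6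
  refine h6.unique (h5.congr_of_eventuallyEq (.of_forall fun s => ?_))
  simp [Dat.N, Dat.p0, smul_sub]

theorem Dat.OK.N_der (h : D.OK) : ∃ S : WA k E →L[ℝ] WA k E, IsCompactOperator S ∧
    (∀ g, fderiv ℝ D.N D.p0 (0, g) = g + S g) ∧
    ∀ g z, red z = z → fn (S g) z = chi1 z • D.A z (D.Ev z g) := by
  obtain ⟨AW, hA⟩ := exists_wcut (k := k) (h.frm.contDiff_A h.leaf.sm)
  have hk := h.two
  have h1 : ∀ g z, red z = z →
      fn (wsm D.c1 (wap AW (WA.incl (D.T g)))) z = chi1 z • D.A z (D.Ev z g) := fun g z hz => by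
    rw [fn_wsm, fn_wap, WA.fn_incl, h.hc, cut_chi1 hz, hA]
    rcases le_or_gt (3 / 2) ‖z‖ with h2 | h2
    · rw [chi1_zero h2, zero_smul, zero_smul]
    · rw [cut_eq _ (by linarith), h.op.eq g z (by linarith)]
      rfl
  refine ⟨((wsm D.c1).comp (wap AW)).comp (WA.incl.comp D.T),
    ((WA.WCpt_cpt WA.approx_incl).comp_clm D.T).clm_comp ((wsm D.c1).comp (wap AW)),
    fun g => wa_ext fun z hz => ?_, h1⟩
  rw [nd0_der h, WA.fn_add, WA.fn_add, WA.fn_sub, fn_wsm, fn_wsm, fn_wsm, fn_wap, WA.fn_incl,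
    fn_fderiv_cr (by omega) h.smJ, h.hc, cut_chi1 hz]
  refine Eq.trans ?_ (congrArg _ (h1 g z hz)).symm
  rcases le_or_gt (3 / 2) ‖z‖ with h2 | h2
  · simp [chi1_zero h2]
  have h3 : ‖z‖ < 2 := by linarith
  have h4 : fn (wap D.P0 (D.T g)) =ᶠ[𝓝 z] fun w => D.Φ (D.u0 w) (D.Ev w g) := by
    filter_upwards [(isOpen_lt continuous_norm continuous_const).mem_nhds h3] with w hw
    rw [fn_wap, h.hP, cut_eq _ (le_of_lt hw), h.op.eq g w (le_of_lt hw)]
  have h5 := h.ut_ev D.p0 h3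
  rw [D.up_zero] at h5
  rw [lpt_congr h5 h4, h.hQ, cut_eq _ h3.le, h.frm.conj h.leaf.sm
    ((h.op.contDiff g).differentiable (by exact_mod_cast (by omega : k ≠ 0)) z), h.op.sol, smul_add]
  simp only [Dat.A]
  abel

end Pool.Agent.Lib.MP_7ed551_gt.Cy
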