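import Pool.Agent.Lib.MP_7ed551_gt.Cy.C.Nl0

/-! The nonlinear equation. -/

open scoped ContDiff Topology
open Set Filter Metric Real

noncomputable section

namespace Pool.Agent.Lib.MP_7ed551_gt.Cy

open Pool.Agent.Lib.MP_ccffa6_gt
open Pool.Agent.Lib.MP_ccffa6_gt.WA (fn)

variable {k : ℕ}

variable {D : Dat k}

theorem Dat.OK.N_sm (h : D.OK) : ContDiff ℝ ∞ D.N := by
  have h0 : ContDiff ℝ ∞ D.ut := (contDiff_const.add (WA.const.contDiff.comp
    (contDiff_const.prodMk (contDiff_fst.snd.sub contDiff_const)))).add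
    (((wap D.P0).comp D.T).contDiff.comp contDiff_snd)
  have h1 := (contDiff_cr (k := k) (by have := h.two; omega) h.smJ).comp
    (contDiff_fst.fst.prodMk h0)
  exact (contDiff_snd.sub (((wsm D.c1).comp (wsm D.c1)).contDiff.comp contDiff_snd)).add
    (((wsm D.c1).comp (wap (WA.incl D.Q0))).contDiff.comp h1)

theorem Dat.OK.ut_ev (h : D.OK) (p : (ℝ × ℂ) × WA k E) {z : ℂ} (hz : ‖z‖ < 2) :
    fn (D.ut p) =ᶠ[𝓝 z] D.up p := by
  filter_upwards [(isOpen_lt continuous_norm continuous_const).mem_nhds hz] with w hw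
  rw [Dat.ut, WA.fn_add, WA.fn_add, fn_wap, h.hU, h.hP, cut_eq _ (le_of_lt hw),
    cut_eq _ (le_of_lt hw), h.op.eq _ w (le_of_lt hw)]
  rfl

theorem Dat.OK.N_pt (h : D.OK) (p : (ℝ × ℂ) × WA k E) {z : ℂ} (hz : red z = z) :
    fn (D.N p) z = (1 - chi1 z ^ 2) • fn p.2 z +
      chi1 z • D.Ψ (D.u0 z) (px (D.up p) z + D.J (p.1.1, D.up p z) (py (D.up p) z)) := by
  rw [Dat.N, WA.fn_add, WA.fn_sub, fn_wsm, fn_wsm, fn_wsm, fn_wap, WA.fn_incl,
    fn_cr (by have := h.two; omega) h.smJ, h.hc, cut_chi1 hz, h.hQ]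
  rcases le_or_gt (3 / 2) ‖z‖ with h2 | h2
  · simp [chi1_zero h2]
  · have h3 := h.ut_ev p (z := z) (by linarith)
    simp only [px, py, h3.fderiv_eq, h3.eq_of_nhds, cut_eq _ (by linarith : ‖z‖ ≤ 2)]
    module

theorem Dat.up_zero (D : Dat k) : D.up D.p0 = D.u0 := by
  funext z
  simp [Dat.up, Dat.p0, Prod.mk_zero_zero]

theorem Dat.OK.N_zero (h : D.OK) : D.N D.p0 = 0 := by
  refine wa_ext fun z hz => ?_
  have e : px D.u0 z + D.J (D.t0, D.u0 z) (py D.u0 z) = 0 :=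
    add_eq_zero_iff_eq_neg.2 (h.leaf.hol z trivial).2
  rw [h.N_pt _ hz, D.up_zero]
  simp only [Dat.p0, e, WA.fn_zero, map_zero, smul_zero, add_zero]

theorem Dat.OK.up_sm (h : D.OK) :
    ContDiff ℝ k fun q : ((ℝ × ℂ) × WA k E) × ℂ => D.up q.1 q.2 := by
  have a : ContDiff ℝ k D.u0 := h.leaf.sm.of_le (by exact_mod_cast le_top)
  have b : ContDiff ℝ k D.Φ := h.frm.smΦ.of_le (by exact_mod_cast le_top)
  exact ((a.comp contDiff_snd).add
    (contDiff_const.prodMk (contDiff_fst.fst.snd.sub contDiff_const))).add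
    ((b.comp (a.comp contDiff_snd)).clm_apply
      ((h.op.sm.comp contDiff_snd).clm_apply contDiff_fst.snd))

theorem Dat.OK.ev_out (h : D.OK) {z : ℂ} (hz : 1 ≤ ‖z‖) :
    ∀ᶠ w in 𝓝 z, ∀ v, D.Φ (D.u0 w) v = v ∧ D.Ψ (D.u0 w) v = v :=
  (h.leaf.sm.continuous.continuousAt.eventually
    (h.frm.cpt.isClosed.isOpen_compl.mem_nhds (h.out z hz))).mono fun _ hw => h.frm.far _ hw

end Pool.Agent.Lib.MP_7ed551_gt.Cy
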