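import Pool.Agent.Lib.MP_7ed551_gt.Cy.C.Op
import Pool.Agent.Lib.MP_ccffa6_gt.T.CRect

/-! The nonlinear equation. -/

open scoped ContDiff Topology
open Set Filter Metric Real

noncomputable section

namespace Pool.Agent.Lib.MP_7ed551_gt.Cy

open Pool.Agent.Lib.MP_ccffa6_gt
open Pool.Agent.Lib.MP_ccffa6_gt.WA (fn)

variable {k : ℕ} {J : ℝ × E → E →L[ℝ] E}

theorem contDiff_cr (hk : 1 ≤ k) (hJ : ContDiff ℝ ∞ J) :
    ContDiff ℝ ∞ (cr J : ℝ × WA (k + 1) E → WA k E) := by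
  have h0 : ContDiff ℝ ∞ fun p : ℝ × WA (k + 1) E => WA.const (p.1, (0 : E)) +
      WA.lin (ContinuousLinearMap.inr ℝ ℝ E) p.2 :=
    (WA.const.contDiff.comp (contDiff_fst.prodMk contDiff_const)).add
      ((WA.lin _).contDiff.comp contDiff_snd)
  have h1 := (WA.contDiff_sup (by omega) hJ).comp h0
  have h2 := (WA.bil (ContinuousLinearMap.id ℝ (E →L[ℝ] E))).contDiff.comp
    (WA.incl.contDiff.comp h1)
  exact (WA.dx.contDiff.comp contDiff_snd).add (h2.clm_apply (WA.dy.contDiff.comp contDiff_snd))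

theorem fn_cr (hk : 1 ≤ k) (hJ : ContDiff ℝ ∞ J) (p : ℝ × WA (k + 1) E) (z : ℂ) :
    fn (cr J p) z = px (fn p.2) z + J (p.1, fn p.2 z) (py (fn p.2) z) := by
  rw [cr, WA.fn_add, fn_wap, WA.fn_incl, WA.fn_sup (by omega) hJ, WA.fn_add, WA.fn_const, WA.fn_lin,
    ContinuousLinearMap.inr_apply, Prod.mk_add_mk p.1, add_zero, zero_add]
  rfl

theorem fn_fderiv_cr (hk : 1 ≤ k) (hJ : ContDiff ℝ ∞ J) (p : ℝ × WA (k + 1) E) (ξ : WA (k + 1) E)
    (z : ℂ) : fn (fderiv ℝ (cr J) p (0, ξ)) z = Lpt (fun y => J (p.1, y)) (fn p.2) (fn ξ) z := by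
  have h0 := ((contDiff_cr hk hJ).differentiable (by simp) p).hasFDerivAt.comp p.2
    (hasFDerivAt_prodMk_right (𝕜 := ℝ) p.1 p.2)
  have h1 := (WA.ev z).hasFDerivAt.comp p.2 h0
  have h2 : HasFDerivAt (fun y : WA (k + 1) E => J (p.1, fn y z)) _ p.2 :=
    ((hJ.comp (contDiff_const.prodMk contDiff_id)).differentiable (by simp)
      (fn p.2 z)).hasFDerivAt.comp p.2 (WA.ev z).hasFDerivAt
  have h3 := ((WA.ev z).comp WA.dx).hasFDerivAt.add
    (h2.clm_apply ((WA.ev z).comp WA.dy).hasFDerivAt)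
  have h4 := h1.unique (h3.congr_of_eventuallyEq (.of_forall fun y => fn_cr hk hJ (p.1, y) z))
  refine (DFunLike.congr_fun h4 ξ).trans ?_
  rw [Lpt, add_assoc]
  rfl

end Pool.Agent.Lib.MP_7ed551_gt.Cy
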