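import Pool.Agent.Lib.MP_7ed551_gt.Cy.C.Nl
import Pool.Agent.Lib.MP_ccffa6_gt.T.EMain

/-! Zeros of the nonlinear equation are leaves and conversely. -/

open scoped ContDiff Topology
open Set Filter Metric Real

noncomputable section

namespace Pool.Agent.Lib.MP_7ed551_gt.Cy

open Pool.Agent.Lib.MP_ccffa6_gt
open Pool.Agent.Lib.MP_ccffa6_gt.WA (fn)

variable {k : ℕ} {D : Dat k}

theorem nz0_far (h : D.OK) (p : (ℝ × ℂ) × WA k E) {z : ℂ} (hz : 1 ≤ ‖z‖) :
    D.up p z = D.u0 z + (0, p.1.2 - D.c0) + D.Ev z p.2 := by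
  rw [Dat.up, (h.frm.far _ (h.out z hz) _).1]

theorem nz0_gap (h : D.OK) : ∃ δ : ℝ, 0 < δ ∧ ∀ z, 1 ≤ ‖z‖ → ∀ y, ‖y - D.u0 z‖ < δ → y ∉ D.K := by
  obtain ⟨R, hR⟩ := h.frm.cpt.isBounded.exists_norm_le
  have h1 : ∀ᶠ z in cocompact ℂ, R + 1 ≤ ‖D.u0 z‖ := by
    filter_upwards [h.leaf.lim.eventually (ball_mem_nhds 0 one_pos),
      (tendsto_norm_cocompact_atTop (E := ℂ)).eventually_ge_atTop ((R + 2) / D.ρ)] with z a1 a2
    have a3 := (norm_fst_le (D.u0 z - ((D.ρ : ℂ) * z, D.c0))).trans_lt (mem_ball_zero_iff.1 a1)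
    have a4 := norm_sub_norm_le ((D.ρ : ℂ) * z) (D.u0 z).1
    rw [norm_sub_rev, norm_mul, Complex.norm_real, Real.norm_of_nonneg h.pos.le] at a4
    rw [div_le_iff₀' h.pos] at a2
    have a5 := norm_fst_le (D.u0 z)
    simp only [Prod.fst_sub] at a3
    linarith
  obtain ⟨T, hT, h2⟩ := mem_cocompact.1 h1
  obtain ⟨δ, h3, h4⟩ := ((hT.inter_right (isClosed_le (f := fun _ => (1 : ℝ)) continuous_const
    continuous_norm)).image h.leaf.sm.continuous).exists_thickening_subset_open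
    h.frm.cpt.isClosed.isOpen_compl (by
      rintro _ ⟨z, hz, rfl⟩
      exact h.out z hz.2)
  refine ⟨min δ 1, lt_min h3 one_pos, fun z hz y hy => ?_⟩
  by_cases hm : z ∈ T
  · exact h4 (mem_thickening_iff.2 ⟨_, ⟨z, ⟨hm, hz⟩, rfl⟩, by
      rw [dist_eq_norm]
      exact hy.trans_le (min_le_left _ _)⟩)
  · intro hK
    have a1 : R + 1 ≤ ‖D.u0 z‖ := h2 hm
    have a2 := norm_sub_norm_le (D.u0 z) y
    rw [norm_sub_rev] at a2
    linarith [hR y hK, hy.trans_le (min_le_right _ _)]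

theorem Dat.OK.up_out (h : D.OK) : ∀ᶠ p in 𝓝 D.p0, ∀ z, 1 ≤ ‖z‖ → D.up p z ∉ D.K := by
  obtain ⟨δ, h1, h2⟩ := nz0_gap h
  obtain ⟨C, hC⟩ := h.op.bound
  have h3 : Continuous fun p : (ℝ × ℂ) × WA k E => ‖p.1.2 - D.c0‖ + C * ‖p.2‖ := by fun_prop
  filter_upwards [h3.continuousAt.eventually_lt (continuousAt_const (y := δ))
    (x₀ := D.p0) (by simpa [Dat.p0] using h1)] with p hp z hz
  refine h2 z hz _ (lt_of_le_of_lt ?_ hp)
  rw [nz0_far h p hz, add_assoc, add_sub_cancel_left]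
  refine (norm_add_le _ _).trans (add_le_add (by simp) ?_)
  exact ((D.Ev z).le_opNorm _).trans (mul_le_mul_of_nonneg_right (hC z) (norm_nonneg _))

theorem Dat.OK.N_leaf (h : D.OK) {p : (ℝ × ℂ) × WA k E} (ho : ∀ z, 1 ≤ ‖z‖ → D.up p z ∉ D.K)
    (hp : D.N p = 0) : SLeaf D.ρ (fun y => D.J (p.1.1, y)) (D.up p) p.1.2 := by
  have hk := h.two
  have du := h.leaf.sm.differentiable (by simp)
  have h1 : ∀ z, 1 ≤ ‖z‖ → px (D.up p) z + D.J (p.1.1, D.up p z) (py (D.up p) z) =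
      chi1 z • fn p.2 z := fun z hz => by
    have a1 : D.up p =ᶠ[𝓝 z] fun w => D.u0 w + (0, p.1.2 - D.c0) + D.Ev w p.2 :=
      (h.ev_out hz).mono fun w hw => by rw [Dat.up, (hw _).1]
    rw [h.farJ (p.1.1, D.up p z) (ho z hz)]
    refine (db_congr a1).trans ?_
    rw [db_add ((du z).add_const _)
      ((h.op.contDiff _).differentiable (by exact_mod_cast (by omega : k ≠ 0)) z),
      db_add (du z) (differentiableAt_const _), db_of_hol (differentiableAt_const _), h.op.sol,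
      db_of_jhol h.leaf.hol (h.frm.farJ _ (h.out z hz)), zero_add, zero_add]
  have h2 : JHol (fun y => D.J (p.1.1, y)) (D.up p) univ := by
    refine jhol_of_eq (fun x => h.sq (p.1.1, x)) fun z => ?_
    rcases le_or_gt (3 / 2) ‖z‖ with a1 | a1
    · rw [h1 z (by linarith), chi1_zero a1, zero_smul]
    have a2 := h.N_pt p (red_eq (z := z) (by linarith))
    rw [hp, WA.fn_zero] at a2
    rcases le_total ‖z‖ 1 with a3 | a3
    · rw [chi1_one a3, one_pow, sub_self, zero_smul, zero_add, one_smul] at a2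
      rw [← h.frm.right (D.u0 z) (_ + _), ← a2, map_zero]
    · rw [h1 z a3, (h.frm.far _ (h.out z a3) _).2, smul_smul, ← add_smul, pow_two, sub_add_cancel,
        one_smul] at a2
      rw [h1 z a3, ← a2, smul_zero]
  have h3 : ContDiff ℝ k (D.up p) :=
    h.up_sm.comp (f := fun z : ℂ => (p, z)) (contDiff_const.prodMk contDiff_id)
  refine ⟨contDiffOn_univ.1 (t_ereg2 (h.smJ.comp (contDiff_const.prodMk contDiff_id)) isOpen_univ
    (fun z _ => h3.contDiffAt.of_le (by exact_mod_cast hk)) h2), h2, ?_⟩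
  have h4 := h.leaf.lim.add (h.op.lim' p.2)
  rw [add_zero] at h4
  refine h4.congr' (((tendsto_norm_cocompact_atTop (E := ℂ)).eventually_ge_atTop 1).mono
    fun z hz => ?_)
  simp only [nz0_far h p hz]
  ext <;> simp <;> ring

end Pool.Agent.Lib.MP_7ed551_gt.Cy
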