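import Pool.Agent.Lib.MP_7ed551_gt.Cy.C.Op0

/-! The Cauchy operator of the plane on the Wiener scale. -/

open scoped ContDiff Topology
open Set Filter Metric Real

noncomputable section

namespace Pool.Agent.Lib.MP_7ed551_gt.Cy

open Pool.Agent.Lib.MP_ccffa6_gt
open Pool.Agent.Lib.MP_ccffa6_gt.WA (fn)

variable {k : ℕ}

theorem op_hol {A : Type} [NormedAddCommGroup A] [NormedSpace ℝ A] {H : ℂ → A →L[ℝ] E} {z : ℂ}
    (h : DifferentiableAt ℂ H z) (g : A) : DifferentiableAt ℂ (fun w => H w g) z :=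
  (⟨⟨⟨fun T => T g, fun _ _ => rfl⟩, fun _ _ => rfl⟩, (ContinuousLinearMap.apply ℝ E g).continuous⟩ :
    (A →L[ℝ] E) →L[ℂ] E).differentiableAt.comp z h

theorem op_sm {F : Type} [NormedAddCommGroup F] [NormedSpace ℂ F] [CompleteSpace F] {H : ℂ → F}
    {U : Set ℂ} (hU : IsOpen U) (h : ∀ z ∈ U, DifferentiableAt ℂ H z) : ContDiffOn ℝ ∞ H U :=
  (DifferentiableOn.contDiffOn (fun z hz => (h z hz).differentiableWithinAt) hU).restrict_scalars ℝ

theorem exists_op (hk : 1 ≤ k) : ∃ Ev T, OpS k Ev T := by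
  obtain ⟨W, L, m, hW, hm, h1, h2⟩ := exists_W (k := k)
  have hWd : Differentiable ℝ W := hW.differentiable (by exact_mod_cast (by omega : k ≠ 0))
  obtain ⟨H, G, hH, hG, hl, he⟩ := laurent (W := W) fun z a b =>
    hol_op (hWd z) fun g => by rw [h2 g z b.le, chi1_zero a.le, zero_smul]
  have o1 : IsOpen {z : ℂ | ‖z‖ < 14 / 5} := isOpen_lt continuous_norm continuous_const
  have o2 : IsOpen {z : ℂ | 8 / 5 < ‖z‖} := isOpen_lt continuous_const continuous_norm
  have sH := op_sm o1 hH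
  have sG := op_sm o2 hG
  obtain ⟨S, hS⟩ := exists_ker (contDiff_cut (f := fun z => m z - H z) (hm.contDiffOn.sub
    (sH.mono fun z hz => (mem_ball_zero_iff.1 hz).trans (by norm_num)))) (per_cut _) (k + 1)
  obtain ⟨Ev, e1, e2⟩ : ∃ Ev : ℂ → WA k E →L[ℝ] E, (∀ z, ‖z‖ < 14 / 5 → Ev z = W z - H z) ∧
      ∀ z, 8 / 5 < ‖z‖ → Ev z = G z := by
    refine ⟨fun z => if ‖z‖ < 14 / 5 then W z - H z else G z, fun z hz => if_pos hz,
      fun z hz => ?_⟩
    by_cases a : ‖z‖ < 14 / 5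
    · simp only [if_pos a, he z hz a, add_sub_cancel_left]
    · exact if_neg a
  have e1' : ∀ z, ‖z‖ < 14 / 5 → Ev =ᶠ[𝓝 z] fun z => W z - H z := fun z hz =>
    (o1.eventually_mem hz).mono e1
  have e2' : ∀ z, 8 / 5 < ‖z‖ → Ev =ᶠ[𝓝 z] G := fun z hz => (o2.eventually_mem hz).mono e2
  refine ⟨Ev, L + S, contDiff_iff_contDiffAt.2 fun z => ?_, hl.congr' ?_, fun g z hz => ?_,
    fun g z => ?_⟩
  · rcases lt_or_ge ‖z‖ 2 with hz | hz
    · have a : ‖z‖ < 14 / 5 := by linarith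
      exact (hW.contDiffAt.sub ((sH.contDiffAt (o1.mem_nhds a)).of_le
        (by exact_mod_cast le_top))).congr_of_eventuallyEq (e1' z a)
    · have a : 8 / 5 < ‖z‖ := by linarith
      exact ((sG.contDiffAt (o2.mem_nhds a)).of_le
        (by exact_mod_cast le_top)).congr_of_eventuallyEq (e2' z a)
  · exact ((tendsto_norm_cocompact_atTop (E := ℂ)).eventually_gt_atTop _).mono fun z hz => (e2 z hz).symm
  · change fn (L g) z + fn (S g) z = _
    rw [hS, cut_eq _ hz, e1 z (by linarith), sub_apply, sub_apply, h1, add_sub_assoc]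
  · rcases lt_or_ge ‖z‖ 2 with hz | hz
    · have a : ‖z‖ < 14 / 5 := by linarith
      have b := op_hol (hH z a) g
      rw [db_congr (θ := fun w => W w g - H w g) ((e1' z a).mono fun w hw => by simp only [hw, sub_apply]),
        db_sub ((hWd z).clm_apply (differentiableAt_const g)) (b.restrictScalars ℝ), db_of_hol b,
        sub_zero, h2 g z (by linarith)]
    · have a : 8 / 5 < ‖z‖ := by linarith
      rw [db_congr (θ := fun w => G w g) ((e2' z a).mono fun w hw => by simp only [hw]),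
        db_of_hol (op_hol (hG z a) g), chi1_zero (by linarith), zero_smul]

theorem OpS.contDiff {Ev : ℂ → WA k E →L[ℝ] E} {T : WA k E →L[ℝ] WA (k + 1) E} (h : OpS k Ev T)
    (g : WA k E) : ContDiff ℝ k fun z => Ev z g := h.sm.clm_apply contDiff_const

theorem OpS.lim' {Ev : ℂ → WA k E →L[ℝ] E} {T : WA k E →L[ℝ] WA (k + 1) E} (h : OpS k Ev T)
    (g : WA k E) : Tendsto (fun z => Ev z g) (cocompact ℂ) (𝓝 0) :=
  ((ContinuousLinearMap.apply ℝ E g).continuous.tendsto' 0 0 rfl).comp h.lim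

theorem OpS.bound {Ev : ℂ → WA k E →L[ℝ] E} {T : WA k E →L[ℝ] WA (k + 1) E} (h : OpS k Ev T) :
    ∃ C : ℝ, ∀ z, ‖Ev z‖ ≤ C := by
  obtain ⟨K, hK, h1⟩ := mem_cocompact.1 (h.lim.eventually (closedBall_mem_nhds 0 one_pos))
  obtain ⟨C, hC⟩ := hK.exists_bound_of_continuousOn h.sm.continuous.continuousOn
  refine ⟨max C 1, fun z => ?_⟩
  by_cases hz : z ∈ K
  · exact le_max_of_le_left (hC z hz)
  · exact le_max_of_le_right (mem_closedBall_zero_iff.1 (h1 hz))

theorem OpS.uniq {Ev : ℂ → WA k E →L[ℝ] E} {T : WA k E →L[ℝ] WA (k + 1) E} (h : OpS k Ev T)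
    (hk : 1 ≤ k) {η : ℂ → E} {g : WA k E} (hd : Differentiable ℝ η)
    (hl : Tendsto η (cocompact ℂ) (𝓝 0)) (he : ∀ z, db η z = chi1 z • fn g z) (z : ℂ) :
    η z = Ev z g := by
  have h1 := (h.contDiff g).differentiable (by exact_mod_cast (by omega : k ≠ 0))
  exact sub_eq_zero.1 (liou (η := fun w => η w - Ev w g) (hd.fun_sub h1)
    (fun w => by rw [db_sub (hd w) (h1 w), he, h.sol, sub_self])
    (by simpa using hl.sub (h.lim' g)) z)

end Pool.Agent.Lib.MP_7ed551_gt.Cy
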