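import Pool.Agent.Lib.MP_7ed551_gt.Cy.C.Prd
import Pool.Agent.Lib.MP_7ed551_gt.Cy.C.Evl
import Pool.Agent.Lib.MP_7ed551_gt.Cy.C.Ext

/-! The Cauchy operator of the plane on the Wiener scale. -/

open scoped ContDiff Topology
open Set Filter Metric Real

noncomputable section

namespace Pool.Agent.Lib.MP_7ed551_gt.Cy

open Pool.Agent.Lib.MP_ccffa6_gt
open Pool.Agent.Lib.MP_ccffa6_gt.WA (fn)

variable {k : ℕ}

/- `c` with `fn c = cut chi1`, `L = (WA.dbInv J0).comp (wsm c)`, `m = WA.mean.comp (wsm c)`,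
`W z = (WA.ev z).comp L + (conj z / 2) • m`; `WA.db_dbInv`; `contDiff_ev`. -/
theorem exists_W : ∃ (W : ℂ → WA k E →L[ℝ] E) (L : WA k E →L[ℝ] WA (k + 1) E)
    (m : ℂ → WA k E →L[ℝ] E), ContDiff ℝ k W ∧ ContDiff ℝ ∞ m ∧
    (∀ g z, W z g = fn (L g) z + m z g) ∧
    ∀ g z, ‖z‖ ≤ 3 → db (fun w => W w g) z = chi1 z • fn g z := by
  obtain ⟨c, hc⟩ := exists_wcut (k := k) contDiff_chi1
  let L : WA k E →L[ℝ] WA (k + 1) E := (WA.dbInv J0).comp (wsm c)
  let m := Complex.reCLM.smulRight (WA.mean.comp (wsm c : WA k E →L[ℝ] WA k E))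
  refine ⟨fun z => (WA.ev z).comp L + m z, L, m,
    ((contDiff_ev k).clm_comp contDiff_const).add m.contDiff, m.contDiff, fun _ _ => rfl,
    fun g z hz => ?_⟩
  let n := Complex.reCLM.smulRight (WA.mean (wsm c g))
  have h1 := congrArg (fn · z) (WA.db_dbInv (j := J0)
    (fun v => by rw [J0_apply, J0_apply, smul_smul, Complex.I_mul_I, neg_one_smul]) (wsm c g))
  have h2 : db n z = WA.mean (wsm c g) := by simp [db, px, py, n]
  refine (db_add ((WA.contDiff (L g)).differentiable (by simp) z) n.differentiableAt).trans ?_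
  rw [h2, ← cut_chi1 (red_eq hz), ← hc]
  exact eq_sub_iff_add_eq.1 h1

/- An operator valued map which is real differentiable and satisfies the Cauchy-Riemann equation
on every vector is holomorphic (`differentiableAt_of_cr`). -/
theorem hol_op {A : Type} [NormedAddCommGroup A] [NormedSpace ℝ A] {W : ℂ → A →L[ℝ] E} {z : ℂ}
    (hd : DifferentiableAt ℝ W z) (h : ∀ g, db (fun w => W w g) z = 0) :
    DifferentiableAt ℂ W z := by
  refine (differentiableAt_of_cr hd (ContinuousLinearMap.ext fun g => ?_)).differentiableAt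
  have h1 := h g
  rw [db, px, py, fderiv_clm_apply hd (differentiableAt_const g), J0_apply] at h1
  simp only [fderiv_fun_const, Pi.zero_apply, ContinuousLinearMap.comp_zero, zero_add,
    ContinuousLinearMap.flip_apply] at h1
  rw [smul_apply, px, eq_neg_of_add_eq_zero_left h1, smul_neg, smul_smul, Complex.I_mul_I,
    neg_one_smul, neg_neg, py]

end Pool.Agent.Lib.MP_7ed551_gt.Cy
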