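import Pool.Agent.Lib.MP_7ed551_gt.Cy.C.Prd1

/-! Periodic extension. -/

open scoped ContDiff Topology
open Set Filter Metric Real

noncomputable section

namespace Pool.Agent.Lib.MP_7ed551_gt.Cy

open Pool.Agent.Lib.MP_ccffa6_gt
open Pool.Agent.Lib.MP_ccffa6_gt.WA (fn)

variable {V : Type} [NormedAddCommGroup V] [NormedSpace ℝ V]

variable [FiniteDimensional ℝ V] {k : ℕ}

theorem wa_ext {g g' : WA k V} (h : ∀ z, red z = z → fn g z = fn g' z) : g = g' := by
  refine WA.ext fun z => ?_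
  rw [← per_red (WA.per g) z, ← per_red (WA.per g') z, h _ (red_red z)]

theorem exists_wcut {f : ℂ → V} (hf : ContDiff ℝ ∞ f) : ∃ g : WA k V, fn g = cut f :=
  WA.of_smooth (contDiff_cut hf.contDiffOn) (per_cut f)

/- `BA.of_bounds`; `cut_loc`, `iteratedFDeriv_comp_add_right`, `norm_iteratedFDeriv_smul_le`;
for `5 / 2 < ‖z‖` the product vanishes near `z`. -/
theorem BA_cut {ι : Type} {f : ι → ℂ → V} (hs : ∀ i, ContDiff ℝ ∞ (f i))
    (hb : ∀ j : ℕ, ∃ C : ℝ, ∀ i, ∀ z ∈ closedBall (0 : ℂ) 3, ‖iteratedFDeriv ℝ j (f i) z‖ ≤ C) :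
    Wi.BA k fun i => cut (f i) := by
  have := Wi.cpl V
  refine Wi.BA.of_bounds (fun i => contDiff_cut (hs i).contDiffOn) (fun i => per_cut _)
    (fun j => ?_) k
  choose C hC using hb
  choose D hD using fun m : ℕ => (isCompact_closedBall (0 : ℂ) 3).exists_bound_of_continuousOn
    (contDiff_chi2.continuous_iteratedFDeriv (m := m) (by exact_mod_cast le_top)).continuousOn
  refine ⟨max 0 (∑ m ∈ Finset.range (j + 1), (j.choose m : ℝ) * D m * C (j - m)), fun i z => ?_⟩
  rw [((cut_loc (f i) z).iteratedFDeriv ℝ j).eq_of_nhds,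
    iteratedFDeriv_comp_add_right (f := fun w => chi2 w • f i w), add_sub_cancel]
  generalize red z = w
  rcases le_or_gt ‖w‖ 3 with hw | hw
  · have hw' := mem_closedBall_zero_iff.2 hw
    refine le_max_of_le_right ((norm_iteratedFDeriv_smul_le contDiff_chi2 (hs i) w
      (by exact_mod_cast le_top)).trans (Finset.sum_le_sum fun m _ => ?_))
    have := (norm_nonneg _).trans (hD m w hw')
    gcongr
    exacts [hD m w hw', hC _ i w hw']
  · have e : (fun w => chi2 w • f i w) =ᶠ[𝓝 w] fun _ => 0 :=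
      ((isOpen_lt continuous_const continuous_norm).eventually_mem hw).mono fun y hy => by
        simp only [chi2_zero (le_trans (by norm_num) (le_of_lt hy)), zero_smul]
    rw [(e.iteratedFDeriv ℝ j).eq_of_nhds, iteratedFDeriv_fun_zero]
    simp

/- `tendsto_of_subseq_tendsto`, `WA.subseq_of_BA`; the limit is identified pointwise. -/
theorem tendsto_cut {f : ℕ → ℂ → V} {f0 : ℂ → V} (hs : ∀ i, ContDiff ℝ ∞ (f i))
    (hb : ∀ j : ℕ, ∃ C : ℝ, ∀ i, ∀ z ∈ closedBall (0 : ℂ) 3, ‖iteratedFDeriv ℝ j (f i) z‖ ≤ C)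
    (hl : Tendsto f atTop (𝓝 f0)) {g : ℕ → WA k V} {g0 : WA k V} (hg : ∀ i, fn (g i) = cut (f i))
    (h0 : fn g0 = cut f0) : Tendsto g atTop (𝓝 g0) := by
  refine tendsto_of_subseq_tendsto fun ns hns => ?_
  obtain ⟨φ, v, hφ, hv⟩ := WA.subseq_of_BA (fun i => g (ns i)) (by
    simp only [hg]
    exact BA_cut (fun i => hs (ns i)) fun j => (hb j).imp fun C hC i => hC (ns i))
  refine ⟨φ, (WA.ext fun z => tendsto_nhds_unique
    (((WA.ev z).continuous.tendsto v).comp hv) ?_ : v = g0) ▸ hv⟩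
  change Tendsto (fun n => fn (g (ns (φ n))) z) _ _
  simp only [hg, h0, cut]
  exact ((tendsto_pi_nhds.1 hl _).comp (hns.comp hφ.tendsto_atTop)).const_smul _

end Pool.Agent.Lib.MP_7ed551_gt.Cy
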