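import Pool.Agent.Lib.MP_7ed551_gt.Cy.C.Def

/-! Periodic extension. -/

open scoped ContDiff Topology
open Set Filter Metric Real

noncomputable section

namespace Pool.Agent.Lib.MP_7ed551_gt.Cy

open Pool.Agent.Lib.MP_ccffa6_gt
open Pool.Agent.Lib.MP_ccffa6_gt.WA (fn)

theorem red_per : Per red := fun z => by
  constructor <;> simp [red, toIocMod_add_right]

theorem red_red (z : ℂ) : red (red z) = red z := by
  simp only [red, toIocMod_toIocMod]

theorem red_eq {z : ℂ} (hz : ‖z‖ ≤ 3) : red z = z := by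
  have k : ∀ x : ℝ, |x| ≤ ‖z‖ → toIocMod two_pi_pos (-π) x = x := fun x hx =>
    (toIocMod_eq_self _).2 (by constructor <;> linarith [abs_le.1 (hx.trans hz), pi_gt_three])
  rw [red, k _ (Complex.abs_re_le_norm z), k _ (Complex.abs_im_le_norm z)]

theorem exists_red (z : ℂ) : ∃ m n : ℤ, red z = z + (m * (2 * π) + n * (2 * π) * Complex.I) :=
  ⟨-toIocDiv two_pi_pos (-π) z.re, -toIocDiv two_pi_pos (-π) z.im,
    Complex.ext (by simp [red, toIocMod, sub_eq_add_neg]) (by simp [red, toIocMod, sub_eq_add_neg])⟩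

theorem red_add (z : ℂ) (m n : ℤ) : red (z + (m * (2 * π) + n * (2 * π) * Complex.I)) = red z := by
  simp [red, toIocMod_add_intCast_mul]

theorem per_red {X : Type} {u : ℂ → X} (h : Per u) (z : ℂ) : u (red z) = u z := by
  obtain ⟨m, n, e⟩ := exists_red z
  rw [e, ← add_assoc, mul_assoc, Function.Periodic.int_mul (fun w => (h w).2) n,
    Function.Periodic.int_mul (fun w => (h w).1) m]

theorem contDiff_chi1 : ContDiff ℝ ∞ chi1 := ContDiffBump.contDiff _

theorem contDiff_chi2 : ContDiff ℝ ∞ chi2 := ContDiffBump.contDiff _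

theorem chi1_one {z : ℂ} (hz : ‖z‖ ≤ 1) : chi1 z = 1 :=
  ContDiffBump.one_of_mem_closedBall _ (mem_closedBall_zero_iff.2 hz)

theorem chi1_zero {z : ℂ} (hz : 3 / 2 ≤ ‖z‖) : chi1 z = 0 :=
  ContDiffBump.zero_of_le_dist _ (by rwa [dist_zero_right])

theorem chi2_one {z : ℂ} (hz : ‖z‖ ≤ 2) : chi2 z = 1 :=
  ContDiffBump.one_of_mem_closedBall _ (mem_closedBall_zero_iff.2 hz)

theorem chi2_zero {z : ℂ} (hz : 5 / 2 ≤ ‖z‖) : chi2 z = 0 :=
  ContDiffBump.zero_of_le_dist _ (by rwa [dist_zero_right])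

end Pool.Agent.Lib.MP_7ed551_gt.Cy
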