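import Pool.Agent.Lib.MP_7ed551_gt.Cy.C.Prd0

/-! Periodic extension. -/

open scoped ContDiff Topology
open Set Filter Metric Real

noncomputable section

namespace Pool.Agent.Lib.MP_7ed551_gt.Cy

open Pool.Agent.Lib.MP_ccffa6_gt
open Pool.Agent.Lib.MP_ccffa6_gt.WA (fn)

variable {V : Type} [NormedAddCommGroup V] [NormedSpace ℝ V]

theorem per_cut (f : ℂ → V) : Per (cut f) := fun z => by
  simp only [cut, red_per z, and_self]

theorem cut_eq (f : ℂ → V) {z : ℂ} (hz : ‖z‖ ≤ 2) : cut f z = f z := by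
  rw [cut, red_eq (by linarith), chi2_one hz, one_smul]

theorem cut_ev (f : ℂ → V) {z : ℂ} (hz : ‖z‖ < 2) : cut f =ᶠ[𝓝 z] f :=
  ((isOpen_lt continuous_norm continuous_const).eventually_mem hz).mono
    fun _ h => cut_eq f (le_of_lt h)

theorem cut_chi1 {z : ℂ} (hz : red z = z) : cut chi1 z = chi1 z := by
  rw [cut, hz]
  rcases le_total ‖z‖ 2 with h | h
  · rw [chi2_one h, one_smul]
  · rw [chi1_zero (by linarith), smul_zero]

/- With `a = red z - z`: if `‖red z‖ < 3`, then `red w = w + a` near `z`; otherwise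
`5 / 2 < ‖red w‖` and `5 / 2 < ‖w + a‖` near `z`, and both sides vanish. -/
theorem cut_loc (f : ℂ → V) (z : ℂ) :
    cut f =ᶠ[𝓝 z] fun w => chi2 (w + (red z - z)) • f (w + (red z - z)) := by
  filter_upwards [ball_mem_nhds z one_half_pos] with w hw
  obtain ⟨m, n, e⟩ := exists_red z
  rw [cut]
  rcases le_total ‖w + (red z - z)‖ 3 with h | h
  · rw [← red_eq h, e, add_sub_cancel_left, red_add]
  · rw [chi2_zero (z := w + _) (by linarith), chi2_zero (not_lt.1 fun c => ?_), zero_smul, zero_smul]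
    obtain ⟨a, b, d⟩ := exists_red w
    have k := norm_sub_le (red w) (w - z)
    rw [← red_add z a b, red_eq (by
      rw [d, add_sub_sub_cancel, add_comm _ z, ← d] at k
      linarith [mem_ball_iff_norm.1 hw]), add_sub_cancel_left, ← d] at h
    linarith

theorem contDiff_chi2_smul {f : ℂ → V} (hf : ContDiffOn ℝ ∞ f (ball 0 (13 / 5))) :
    ContDiff ℝ ∞ fun z => chi2 z • f z := by
  refine contDiff_iff_contDiffAt.2 fun z => ?_
  rcases lt_or_ge ‖z‖ (13 / 5) with h | h
  · exact contDiff_chi2.contDiffAt.smul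
      (hf.contDiffAt (isOpen_ball.mem_nhds (mem_ball_zero_iff.2 h)))
  · refine (contDiffAt_const (c := 0)).congr_of_eventuallyEq (((isOpen_lt continuous_const
      continuous_norm).eventually_mem (show 5 / 2 < ‖z‖ by linarith)).mono fun w hw => ?_)
    simp only [chi2_zero (le_of_lt hw), zero_smul]

theorem contDiff_cut {f : ℂ → V} (hf : ContDiffOn ℝ ∞ f (ball 0 (13 / 5))) :
    ContDiff ℝ ∞ (cut f) :=
  contDiff_iff_contDiffAt.2 fun z => ((contDiff_chi2_smul hf).comp
    (contDiff_id.add contDiff_const)).contDiffAt.congr_of_eventuallyEq (cut_loc f z)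

end Pool.Agent.Lib.MP_7ed551_gt.Cy
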