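import Pool.Agent.Lib.MP_7ed551_gt.Cy.C.Main
import Pool.Agent.Lib.MP_7ed551_gt.Cy.D.Main
import Pool.Agent.Lib.MP_7ed551_gt.Cy.D.Sim2

/-! The foliation by holomorphic planes. -/

namespace Pool.Agent.Lib.MP_7ed551_gt.Cy

theorem folStmt : FolStmt := fol_of simGStmt (limStmt_of (small_of simGStmt))

end Pool.Agent.Lib.MP_7ed551_gt.Cy
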